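import Pool.Agent.Work.MP_63853a_lc.KBasic

set_option autoImplicit false

/-!
# Apex (size M): adding a vertex joined by weak edges; monotonicity in the weights

`kk_apex_inl`: the components of `A.map inl` in `apex φ` are those of `A` and the new vertex alone
(`Cl (apex φ) (A.map ..) ≃ Option (Cl φ A)`). `kk_apex_le`: for `B ⊆ E ⊕ V × Bool` with left part `A` we have
`kk (apex φ) B ≤ kk φ A + 1` by `kk_anti`. `apex_lower`: keep only the sets `A.map inl` of the sum.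
`apex_upper`: `∑ B = ∑ A, ∑ B', ..` (`B = A.map inl ∪ B'.map inr`, e.g. `Finset.sumEquiv` or `Finset.disjSum`), `q^(kk B) ≤ q^(kk A + 1)`
and `∑ B' : Finset (V × Bool), w2 ^ B'.card = (1 + w2)^(2 * card V)` (`Finset.prod_one_add` or `Finset.sum_pow_mul_eq_add_pow`).
-/

namespace Pool.Agent.Work.MP_63853a_lc

open Finset

variable {V E : Type} [Fintype V] [Fintype E] (φ : E → V × V)

private def apexFun (A : Finset E) :
    Cl (apex φ) (A.map ⟨Sum.inl, Sum.inl_injective⟩) → Option (Cl φ A) :=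
  Quot.lift (fun o => o.map (Quot.mk _)) (by
    rintro u v ⟨e, he, h⟩
    rw [Finset.mem_map] at he
    obtain ⟨e', he', rfl⟩ := he
    simp only [Function.Embedding.coeFn_mk, apex, Prod.mk.injEq] at h
    obtain ⟨rfl, rfl⟩ := h
    simp only [Option.map_some]
    exact congrArg some (Quot.sound ⟨e', he', rfl⟩))

private def apexInv (A : Finset E) :
    Option (Cl φ A) → Cl (apex φ) (A.map ⟨Sum.inl, Sum.inl_injective⟩)
  | none => Quot.mk _ none
  | some c => Quot.lift (fun v => Quot.mk _ (some v)) (by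
      rintro u v ⟨e, he, h⟩
      refine Quot.sound ⟨Sum.inl e, Finset.mem_map.2 ⟨e, he, rfl⟩, ?_⟩
      simp [apex, h]) c

private def apexEquiv (A : Finset E) :
    Cl (apex φ) (A.map ⟨Sum.inl, Sum.inl_injective⟩) ≃ Option (Cl φ A) where
  toFun := apexFun φ A
  invFun := apexInv φ A
  left_inv := by
    rintro ⟨_ | v⟩ <;> rfl
  right_inv := by
    rintro (_ | v)
    · rfl
    · obtain ⟨v, rfl⟩ := Quot.exists_rep v
      rfl

omit [Fintype E] in
private theorem kk_apex_inl (A : Finset E) :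
    kk (apex φ) (A.map ⟨Sum.inl, Sum.inl_injective⟩) = kk φ A + 1 := by
  have h1 : kk (apex φ) (A.map ⟨Sum.inl, Sum.inl_injective⟩) = Nat.card (Option (Cl φ A)) :=
    Nat.card_congr (apexEquiv φ A)
  have : Finite (Cl φ A) := Quot.finite _
  rw [h1, Finite.card_option]
  rfl

private theorem kk_apex_le (B : Finset (E ⊕ V × Bool)) : kk (apex φ) B ≤ kk φ B.toLeft + 1 := by
  rw [← kk_apex_inl]
  refine kk_anti _ fun x hx => ?_
  rw [Finset.mem_map] at hx
  obtain ⟨e, he, rfl⟩ := hx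
  exact Finset.mem_toLeft.1 he

theorem apex_lower {q w2 : ℝ} (hq : 1 ≤ q) (hw2 : 0 ≤ w2) (w : E → ℝ) (hw : ∀ e, 0 ≤ w e) :
    q * zz φ q w ≤ zz (apex φ) q (Sum.elim w fun _ => w2) := by
  have hq0 : 0 ≤ q := by linarith
  have hsw : ∀ e, 0 ≤ (Sum.elim w fun _ => w2 : E ⊕ V × Bool → ℝ) e := by
    rintro (e | e)
    · exact hw e
    · exact hw2
  have h1 : q * zz φ q w = ∑ B ∈ (univ : Finset (Finset E)).map
      ⟨fun A : Finset E => (A.map ⟨Sum.inl, Sum.inl_injective⟩ : Finset (E ⊕ V × Bool)),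
        Finset.map_injective _⟩, q ^ kk (apex φ) B * ∏ e ∈ B, (Sum.elim w fun _ => w2) e := by
    rw [Finset.sum_map]
    unfold zz
    rw [Finset.mul_sum]
    refine Finset.sum_congr rfl fun A _ => ?_
    simp only [Function.Embedding.coeFn_mk]
    rw [kk_apex_inl, Finset.prod_map, pow_succ]
    simp only [Function.Embedding.coeFn_mk, Sum.elim_inl]
    ring
  rw [h1]
  unfold zz
  refine Finset.sum_le_sum_of_subset_of_nonneg (Finset.subset_univ _) fun B _ _ => ?_
  exact mul_nonneg (pow_nonneg hq0 _) (Finset.prod_nonneg fun e _ => hsw e)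

theorem apex_upper {q w2 : ℝ} (hq : 1 ≤ q) (hw2 : 0 ≤ w2) (w : E → ℝ) (hw : ∀ e, 0 ≤ w e) :
    zz (apex φ) q (Sum.elim w fun _ => w2) ≤ (1 + w2) ^ (2 * Fintype.card V) * (q * zz φ q w) := by
  have hq0 : 0 ≤ q := by linarith
  have hsw : ∀ e, 0 ≤ (Sum.elim w fun _ => w2 : E ⊕ V × Bool → ℝ) e := by
    rintro (e | e)
    · exact hw e
    · exact hw2
  have h1 : zz (apex φ) q (Sum.elim w fun _ => w2) ≤ ∑ B : Finset (E ⊕ V × Bool),
      q ^ (kk φ B.toLeft + 1) * ((∏ e ∈ B.toLeft, w e) * w2 ^ B.toRight.card) := by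
    unfold zz
    refine Finset.sum_le_sum fun B _ => ?_
    have h2 : ∏ e ∈ B, (Sum.elim w fun _ => w2 : E ⊕ V × Bool → ℝ) e =
        (∏ e ∈ B.toLeft, w e) * w2 ^ B.toRight.card := by
      conv_lhs => rw [← Finset.toLeft_disjSum_toRight (u := B)]
      rw [Finset.prod_disjSum]
      simp
    rw [h2]
    refine mul_le_mul_of_nonneg_right (pow_le_pow_right₀ hq (kk_apex_le φ B)) ?_
    exact mul_nonneg (Finset.prod_nonneg fun e _ => hw e) (pow_nonneg hw2 _)
  refine h1.trans (le_of_eq ?_)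
  have h3 : ∑ B : Finset (E ⊕ V × Bool),
      q ^ (kk φ B.toLeft + 1) * ((∏ e ∈ B.toLeft, w e) * w2 ^ B.toRight.card) =
      ∑ x : Finset E × Finset (V × Bool),
        q ^ (kk φ x.1 + 1) * ((∏ e ∈ x.1, w e) * w2 ^ x.2.card) :=
    Fintype.sum_equiv (Finset.sumEquiv.toEquiv) _ _ fun B => rfl
  rw [h3, Fintype.sum_prod_type]
  have h4 : ∑ B' : Finset (V × Bool), w2 ^ B'.card = (1 + w2) ^ (2 * Fintype.card V) := by
    have := Fintype.sum_pow_mul_eq_add_pow (V × Bool) w2 (1 : ℝ)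
    simp only [one_pow, mul_one] at this
    rw [this, Fintype.card_prod, Fintype.card_bool, add_comm, mul_comm]
  have h5 : ∀ A : Finset E, ∑ B' : Finset (V × Bool),
      q ^ (kk φ A + 1) * ((∏ e ∈ A, w e) * w2 ^ B'.card) =
      (1 + w2) ^ (2 * Fintype.card V) * (q * (q ^ kk φ A * ∏ e ∈ A, w e)) := by
    intro A
    rw [← h4, Finset.sum_mul]
    refine Finset.sum_congr rfl fun B' _ => ?_
    rw [pow_succ]
    ring
  simp only [h5]
  unfold zz
  rw [← Finset.mul_sum, ← Finset.mul_sum]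

theorem zz_mono {q : ℝ} (hq : 0 ≤ q) (w w' : E → ℝ) (hw : ∀ e, 0 ≤ w e) (h : ∀ e, w e ≤ w' e) :
    zz φ q w ≤ zz φ q w' := by
  unfold zz
  refine Finset.sum_le_sum fun A _ => mul_le_mul_of_nonneg_left ?_ (pow_nonneg hq _)
  exact Finset.prod_le_prod (fun e _ => hw e) fun e _ => h e

theorem zz_upper {q η : ℝ} (hq : 0 ≤ q) (hη : 0 ≤ η) (w w' : E → ℝ) (hw : ∀ e, 0 ≤ w e)
    (hw' : ∀ e, 0 ≤ w' e) (h : ∀ e, w' e ≤ (1 + η) * w e) :
    zz φ q w' ≤ (1 + η) ^ Fintype.card E * zz φ q w := by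
  unfold zz
  rw [Finset.mul_sum]
  refine Finset.sum_le_sum fun A _ => ?_
  have h1 : ∏ e ∈ A, w' e ≤ (1 + η) ^ Fintype.card E * ∏ e ∈ A, w e := by
    calc ∏ e ∈ A, w' e ≤ ∏ e ∈ A, ((1 + η) * w e) :=
          Finset.prod_le_prod (fun e _ => hw' e) fun e _ => h e
      _ = (1 + η) ^ A.card * ∏ e ∈ A, w e := by
          rw [Finset.prod_mul_distrib, Finset.prod_const]
      _ ≤ (1 + η) ^ Fintype.card E * ∏ e ∈ A, w e :=
          mul_le_mul_of_nonneg_right
            (pow_le_pow_right₀ (by linarith) (Finset.card_le_univ A))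
            (Finset.prod_nonneg fun e _ => hw e)
  calc q ^ kk φ A * ∏ e ∈ A, w' e ≤ q ^ kk φ A * ((1 + η) ^ Fintype.card E * ∏ e ∈ A, w e) :=
        mul_le_mul_of_nonneg_left h1 (pow_nonneg hq _)
    _ = (1 + η) ^ Fintype.card E * (q ^ kk φ A * ∏ e ∈ A, w e) := by ring

end Pool.Agent.Work.MP_63853a_lc
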