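import Pool.Agent.Work.MP_63853a_lc.KBasic

set_option autoImplicit false

/-!
# Cross (size M): many edges join different components

`cross_bound`: let `S_C ⊆ V` be the vertex set of the component `C : Cl φ A`. The sum over `C` of `cut φ S_C` is
`2 * cr φ A` (an edge which crosses is in the cuts of the components of its two ends and in no other one; an edge which does
not cross is in no cut). If `cut φ S_C < c` then the classes given by `f` do not leave `S_C`; so choosing `u_C ∈ S_C`
the map `C ↦ f u_C` is injective on the set of these bad components: there are at most `m` bad ones. So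
`2 * cr φ A ≥ c * (kk φ A - #bad) ≥ c * (kk φ A - m)`.
`one_component`: if `Cl φ univ` has two different members `C ≠ C'`, then `S_C` is non-empty with non-empty complement and no
edge leaves it: `cut φ S_C = 0 < c`.
-/

namespace Pool.Agent.Work.MP_63853a_lc

open Finset

variable {V E : Type} [Fintype V] [Fintype E] (φ : E → V × V)

theorem cross_bound {c : ℝ} (hc : 0 ≤ c) {m : ℕ} (h : Classes φ c m) (A : Finset E) :
    c / 2 * ((kk φ A : ℝ) - m) ≤ cr φ A := by
  classical
  obtain ⟨f, hf⟩ := h
  have hfin : Finite (Cl φ A) := Quot.finite _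
  have := Fintype.ofFinite (Cl φ A)
  let S : Cl φ A → Set V := fun C => {v | cls φ A v = C}
  let u : Cl φ A → V := fun C => Quot.out C
  have hu : ∀ C, cls φ A (u C) = C := fun C => Quot.out_eq C
  let Bad : Finset (Cl φ A) := univ.filter fun C => (cut φ (S C) : ℝ) < c
  have hbad : Bad.card ≤ m := by
    have h1 : Bad.card ≤ (univ : Finset (Fin m)).card := by
      refine Finset.card_le_card_of_injOn (fun C => f (u C)) (fun C _ => mem_univ _) ?_
      intro C hC C' _ heq
      by_contra hne
      have h2 : (cut φ (S C) : ℝ) < c := (mem_filter.1 hC).2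
      have h3 : c ≤ cut φ (S C) := by
        refine hf (S C) ⟨u C, hu C, u C', ?_, heq⟩
        intro h4
        have h5 : cls φ A (u C') = C := h4
        rw [hu] at h5
        exact hne h5.symm
      linarith
    simpa using h1
  have hkk : (kk φ A : ℝ) = Fintype.card (Cl φ A) := by
    rw [← Nat.card_eq_fintype_card]
    rfl
  have h6 : ∑ C, (cut φ (S C) : ℝ) ≤ 2 * cr φ A := by
    have h7 : ∀ C, (cut φ (S C) : ℝ) =
        ∑ e : E, if ¬ (cls φ A (φ e).1 = C ↔ cls φ A (φ e).2 = C) then (1 : ℝ) else 0 := by
      intro C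
      unfold cut
      rw [Set.ncard_eq_toFinset_card', Finset.sum_boole]
      congr 2
      ext e
      simp [S]
    have h8 : (cr φ A : ℝ) = ∑ e : E, if Cross φ A e then (1 : ℝ) else 0 := by
      unfold cr
      rw [Set.ncard_eq_toFinset_card', Finset.sum_boole]
      congr 2
      ext e
      simp
    rw [Finset.sum_congr rfl fun C _ => h7 C, Finset.sum_comm, h8, Finset.mul_sum]
    refine Finset.sum_le_sum fun e _ => ?_
    by_cases hcr : Cross φ A e
    · rw [if_pos hcr, Finset.sum_boole]
      have h9 : (univ.filter fun C => ¬ (cls φ A (φ e).1 = C ↔ cls φ A (φ e).2 = C)) ⊆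
          {cls φ A (φ e).1, cls φ A (φ e).2} := by
        intro C hC
        have h10 := (mem_filter.1 hC).2
        rw [mem_insert, mem_singleton]
        by_contra h11
        push Not at h11
        exact h10 ⟨fun h => (h11.1 h.symm).elim, fun h => (h11.2 h.symm).elim⟩
      have h12 := (Finset.card_le_card h9).trans Finset.card_le_two
      have h13 : ((univ.filter fun C => ¬ (cls φ A (φ e).1 = C ↔ cls φ A (φ e).2 = C)).card : ℝ)
          ≤ 2 := by exact_mod_cast h12
      linarith
    · have h9 : cls φ A (φ e).1 = cls φ A (φ e).2 := by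
        by_contra h
        exact hcr h
      rw [if_neg hcr, h9]
      simp
  have h14 : c * ((kk φ A : ℝ) - m) ≤ ∑ C, (cut φ (S C) : ℝ) := by
    have h15 : ∑ C : Cl φ A, (if (cut φ (S C) : ℝ) < c then (0 : ℝ) else c) ≤
        ∑ C, (cut φ (S C) : ℝ) := by
      refine Finset.sum_le_sum fun C _ => ?_
      split_ifs with h
      · exact Nat.cast_nonneg _
      · exact not_lt.1 h
    refine le_trans ?_ h15
    have h16 : ∑ C : Cl φ A, (if (cut φ (S C) : ℝ) < c then (0 : ℝ) else c) =
        c * (Fintype.card (Cl φ A) - Bad.card) := by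
      have h17 : ∀ C : Cl φ A, (if (cut φ (S C) : ℝ) < c then (0 : ℝ) else c) =
          c - c * (if (cut φ (S C) : ℝ) < c then (1 : ℝ) else 0) := by
        intro C
        split_ifs <;> ring
      rw [Finset.sum_congr rfl fun C _ => h17 C, Finset.sum_sub_distrib, ← Finset.mul_sum,
        Finset.sum_boole, Finset.sum_const, Finset.card_univ, nsmul_eq_mul]
      ring
    rw [h16, hkk]
    refine mul_le_mul_of_nonneg_left ?_ hc
    have : (Bad.card : ℝ) ≤ m := by exact_mod_cast hbad
    linarith
  linarith

theorem one_component [Nonempty V] {c : ℝ} (hc : 0 < c) (h : EConn φ c) : kk φ univ = 1 := by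
  have hne : Nonempty (Cl φ univ) := ⟨cls φ univ (Classical.arbitrary V)⟩
  have hss : Subsingleton (Cl φ univ) := by
    refine ⟨?_⟩
    rintro ⟨x⟩ ⟨y⟩
    by_contra hxy
    have h1 := h {v | cls φ univ v = cls φ univ x} ⟨x, rfl⟩ ⟨y, fun h => hxy h.symm⟩
    have h2 : cut φ {v | cls φ univ v = cls φ univ x} = 0 := by
      unfold cut
      rw [Set.ncard_eq_zero]
      refine Set.eq_empty_of_forall_notMem fun e he => he ?_
      have h3 : cls φ univ (φ e).1 = cls φ univ (φ e).2 := Quot.sound ⟨e, mem_univ _, rfl⟩
      simp only [Set.mem_ofPred_eq, h3]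
    rw [h2] at h1
    simp only [Nat.cast_zero] at h1
    linarith
  exact Nat.card_eq_one_iff_unique.2 ⟨hss, hne⟩

end Pool.Agent.Work.MP_63853a_lc
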