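import Pool.Agent.Work.MP_63853a_lc.Defs

set_option autoImplicit false

/-!
# FatCut (size M): the gadget graph has edge connectivity at least 2 m

For a position `(e, i)`, `i ≤ len a b e`, call it cut if exactly one of `pt e i`, `pt e (i+1)` is in `S`. The cut of `S` in
`gad φ a b m` is `{positions cut} × Fin m`, so it is enough to find two different cut positions (injection
`Bool × Fin m → cut`, `Set.ncard_le_ncard` / `Set.ncard_image_of_injective`).
As the condition is symmetric in `S` and its complement we may assume `none` (i.e. `Sum.inl none`) is not in `S`. If `S` contains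
`Sum.inl (some v)`, then each of the two paths of `Sum.inr (v, true)`, `Sum.inr (v, false)` starts outside and ends inside `S`
and so contains a cut position. Otherwise all `Sum.inl _` are outside and `S` contains an inner vertex `Sum.inr ⟨e, i⟩ = pt e (i+1)`: the path of
`e` has a cut position before and one after it. (`pt e 0 = Sum.inl ..`, `pt e (len + 1) = Sum.inl ..`.) A discrete intermediate value lemma:
if `P 0` is false and `P n` true there is `i < n` with `¬ P i ∧ P (i+1)`.
-/

namespace Pool.Agent.Work.MP_63853a_lc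

open Finset

variable {V E : Type} [Fintype V] [Fintype E] (φ : E → V × V)

private theorem ivt (P : ℕ → Prop) {j n : ℕ} (hjn : j ≤ n) (h : ¬ (P j ↔ P n)) :
    ∃ i, j ≤ i ∧ i < n ∧ ¬ (P i ↔ P (i + 1)) := by
  induction n, hjn using Nat.le_induction with
  | base => exact absurd Iff.rfl h
  | succ n hn ih =>
    by_cases h1 : P j ↔ P n
    · exact ⟨n, hn, Nat.lt_succ_self n, fun h2 => h (h1.trans h2)⟩
    · obtain ⟨i, h2, h3, h4⟩ := ih h1
      exact ⟨i, h2, h3.trans (Nat.lt_succ_self n), h4⟩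

private theorem pt_zero {V E : Type} (φ : E → V × V) (c : E → ℕ) (e : E) :
    pt φ c e 0 = Sum.inl (φ e).1 := by
  simp [pt]

private theorem pt_last {V E : Type} (φ : E → V × V) (c : E → ℕ) (e : E) :
    pt φ c e (c e + 1) = Sum.inl (φ e).2 := by
  simp [pt]

private theorem pt_succ {V E : Type} (φ : E → V × V) (c : E → ℕ) (e : E) (i : Fin (c e)) :
    pt φ c e (i.1 + 1) = Sum.inr ⟨e, i⟩ := by
  have h : i.1 + 1 - 1 < c e := by simp
  simp [pt]

private theorem two_pos (a b : ℕ) (S : Set (HV V E a b)) (h1 : S.Nonempty) (h2 : Sᶜ.Nonempty) :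
    ∃ x y : Σ e : E ⊕ V × Bool, Fin (len a b e + 1), x ≠ y ∧
      (¬ (pt (apex φ) (len a b) x.1 x.2 ∈ S ↔ pt (apex φ) (len a b) x.1 (x.2 + 1) ∈ S)) ∧
      (¬ (pt (apex φ) (len a b) y.1 y.2 ∈ S ↔ pt (apex φ) (len a b) y.1 (y.2 + 1) ∈ S)) := by
  obtain ⟨s, hs⟩ := h1
  obtain ⟨t, ht⟩ := h2
  have hD : ∃ x : HV V E a b, ¬ (x ∈ S ↔ (Sum.inl none : HV V E a b) ∈ S) := by
    by_cases h0 : (Sum.inl none : HV V E a b) ∈ S
    · exact ⟨t, fun h => ht (h.2 h0)⟩
    · exact ⟨s, fun h => h0 (h.1 hs)⟩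
  by_cases hA : ∃ v : V, ¬ ((Sum.inl (some v) : HV V E a b) ∈ S ↔ (Sum.inl none : HV V E a b) ∈ S)
  · obtain ⟨v, hv⟩ := hA
    have key : ∀ k : Bool, ∃ i, i < len a b (Sum.inr (v, k) : E ⊕ V × Bool) + 1 ∧
        ¬ (pt (apex φ) (len a b) (Sum.inr (v, k)) i ∈ S ↔
          pt (apex φ) (len a b) (Sum.inr (v, k)) (i + 1) ∈ S) := by
      intro k
      obtain ⟨i, -, h3, h4⟩ := ivt (fun i => pt (apex φ) (len a b) (Sum.inr (v, k)) i ∈ S)
        (Nat.zero_le (len a b (Sum.inr (v, k) : E ⊕ V × Bool) + 1)) (by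
          rw [pt_zero, pt_last]
          exact fun h => hv h.symm)
      exact ⟨i, h3, h4⟩
    obtain ⟨i, hi, hi'⟩ := key true
    obtain ⟨j, hj, hj'⟩ := key false
    refine ⟨⟨Sum.inr (v, true), ⟨i, hi⟩⟩, ⟨Sum.inr (v, false), ⟨j, hj⟩⟩, ?_, hi', hj'⟩
    intro h
    have h3 := congrArg Sigma.fst h
    simp at h3
  · push Not at hA
    have hA' : ∀ o : Option V, ((Sum.inl o : HV V E a b) ∈ S ↔ (Sum.inl none : HV V E a b) ∈ S) := by
      intro o
      cases o with
      | none => exact Iff.rfl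
      | some v => exact hA v
    obtain ⟨x, hx⟩ := hD
    cases x with
    | inl o => exact absurd (hA' o) hx
    | inr z =>
      obtain ⟨e, i⟩ := z
      have hx1 : ¬ (pt (apex φ) (len a b) e (i.1 + 1) ∈ S ↔ (Sum.inl none : HV V E a b) ∈ S) := by
        rw [pt_succ]
        exact hx
      obtain ⟨j, -, hj, hj'⟩ := ivt (fun i => pt (apex φ) (len a b) e i ∈ S)
        (Nat.zero_le (i.1 + 1)) (by
          rw [pt_zero]
          exact fun h => hx1 (h.symm.trans (hA' _)))
      obtain ⟨k, hk0, hk, hk'⟩ := ivt (fun i => pt (apex φ) (len a b) e i ∈ S)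
        (show i.1 + 1 ≤ len a b e + 1 by have := i.2; omega) (by
          rw [pt_last]
          exact fun h => hx1 (h.trans (hA' _)))
      have hi := i.2
      refine ⟨⟨e, ⟨j, by omega⟩⟩, ⟨e, ⟨k, hk⟩⟩, ?_, hj', hk'⟩
      intro h
      rw [Sigma.mk.injEq] at h
      have h3 := eq_of_heq h.2
      rw [Fin.mk.injEq] at h3
      omega

theorem gad_econn (a b m : ℕ) : EConn (gad φ a b m) (2 * m) := by
  intro S h1 h2
  obtain ⟨x, y, hxy, hx, hy⟩ := two_pos φ a b S h1 h2
  have h3 : 2 * m ≤ cut (gad φ a b m) S := by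
    let f : Bool × Fin m → HE V E a b m := fun p => (if p.1 then x else y, p.2)
    have hf : Function.Injective f := by
      rintro ⟨p, i⟩ ⟨q, j⟩ h
      simp only [f, Prod.mk.injEq] at h
      obtain ⟨h4, h5⟩ := h
      subst h5
      cases p <;> cases q <;> simp at h4 ⊢
      · exact hxy h4.symm
      · exact hxy h4
    have h4 : Set.ncard (Set.range f) = 2 * m := by
      rw [← Set.image_univ, Set.ncard_image_of_injective _ hf, Set.ncard_univ, Nat.card_prod]
      simp
    rw [← h4]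
    refine Set.ncard_le_ncard ?_ (Set.toFinite _)
    rintro _ ⟨⟨p, i⟩, rfl⟩
    cases p
    · exact hy
    · exact hx
  exact_mod_cast h3

end Pool.Agent.Work.MP_63853a_lc
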