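import Pool.Agent.Work.MP_63853a_lc.Defs

set_option autoImplicit false

/-!
# FK (size M): the expansion of Fortuin and Kasteleyn

`Finset.prod_add` turns the product into `∑ A, (∏ e ∈ A, if .. then w e else 0) * ∏ e ∈ univ \ A, z e`; the first product is
`∏ e ∈ A, w e` if `σ (φ e).1 = σ (φ e).2` for all `e ∈ A` and `0` otherwise; such `σ` are the maps
`Cl φ A → Fin Q` (`Quot.lift`), there are `Q ^ kk φ A` of them (`Cl φ A` is finite; `Nat.card_eq_fintype_card`,
`Fintype.card_fun` or `Nat.card_fun`).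
-/

namespace Pool.Agent.Work.MP_63853a_lc

open Finset

variable {V E : Type} [Fintype V] [Fintype E] (φ : E → V × V)

/-- colourings constant on the components -/
private def fkEquiv (A : Finset E) (Q : ℕ) :
    {σ : V → Fin Q // ∀ e ∈ A, σ (φ e).1 = σ (φ e).2} ≃ (Cl φ A → Fin Q) where
  toFun σ := Quot.lift σ.1 (by
    rintro u v ⟨e, he, h⟩
    have := σ.2 e he
    rw [h] at this
    exact this)
  invFun g := ⟨fun v => g (Quot.mk _ v), fun e he => congrArg g (Quot.sound ⟨e, he, rfl⟩)⟩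
  left_inv σ := by
    ext v
    rfl
  right_inv g := by
    ext c
    induction c using Quot.ind
    rfl

open Classical in
private theorem fk_card (A : Finset E) (Q : ℕ) :
    (univ.filter fun σ : V → Fin Q => ∀ e ∈ A, σ (φ e).1 = σ (φ e).2).card = Q ^ kk φ A := by
  rw [← Fintype.card_subtype, ← Nat.card_eq_fintype_card, Nat.card_congr (fkEquiv φ A Q), Nat.card_fun,
    Nat.card_fin]
  rfl

open Classical in
theorem fk (Q : ℕ) (w z : E → ℝ) :
    ∑ σ : V → Fin Q, ∏ e, (z e + if σ (φ e).1 = σ (φ e).2 then w e else 0) =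
      ∑ A : Finset E, (Q : ℝ) ^ kk φ A * (∏ e ∈ A, w e) * ∏ e ∈ univ \ A, z e := by
  have h1 : ∀ σ : V → Fin Q, ∏ e, (z e + if σ (φ e).1 = σ (φ e).2 then w e else 0) =
      ∑ A : Finset E, (∏ e ∈ A, if σ (φ e).1 = σ (φ e).2 then w e else 0) * ∏ e ∈ univ \ A, z e := by
    intro σ
    rw [← Finset.powerset_univ, ← Finset.prod_add]
    exact Finset.prod_congr rfl fun e _ => add_comm _ _
  rw [Finset.sum_congr rfl fun σ _ => h1 σ, Finset.sum_comm]
  refine Finset.sum_congr rfl fun A _ => ?_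
  rw [← Finset.sum_mul]
  congr 1
  have h2 : ∀ σ : V → Fin Q, (∏ e ∈ A, if σ (φ e).1 = σ (φ e).2 then w e else 0) =
      if ∀ e ∈ A, σ (φ e).1 = σ (φ e).2 then ∏ e ∈ A, w e else 0 := by
    intro σ
    split_ifs with h
    · exact Finset.prod_congr rfl fun e he => if_pos (h e he)
    · push Not at h
      obtain ⟨e, he, hne⟩ := h
      exact Finset.prod_eq_zero he (if_neg hne)
  rw [Finset.sum_congr rfl fun σ _ => h2 σ, ← Finset.sum_filter, Finset.sum_const, nsmul_eq_mul, fk_card]
  push_cast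
  rfl

end Pool.Agent.Work.MP_63853a_lc
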