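import Pool.Agent.Work.MP_63853a_lc.PathPotts
import Pool.Agent.Work.MP_63853a_lc.FK

set_option autoImplicit false

/-!
# FatZ (size M): the partition function of the fat graph for real q

Both sides are polynomials in `q` (`∑ A, C (γ ^ A.card) * X ^ kk` and the like; `PP g L q` is the value of
`∑ i ∈ range L, (X + C g)^i * C (g^(L-1-i))`). For `q = Q` a natural number they agree by `potts_fat` and `fk` (twice: on the
left with `z = 1`, `w = γ`, on the right with `z e = PP .. Q`, `w e = g^(c e + 1)`), so the polynomials are equal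
(`Polynomial.eq_of_infinite_eval_eq`, the set of naturals in `ℝ` is infinite: `Set.infinite_range_of_injective`).
`fat_weff`: divide by `∏ e, PP .. > 0`.
-/

namespace Pool.Agent.Work.MP_63853a_lc

open Finset

variable {V E : Type} [Fintype V] [Fintype E] (φ : E → V × V)

private noncomputable def PPp (g : ℝ) (L : ℕ) : Polynomial ℝ :=
  ∑ i ∈ range L, (Polynomial.X + Polynomial.C g) ^ i * Polynomial.C (g ^ (L - 1 - i))

private theorem PPp_eval (g : ℝ) (L : ℕ) (q : ℝ) : (PPp g L).eval q = PP g L q := by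
  unfold PPp PP
  rw [Polynomial.eval_finsetSum]
  refine Finset.sum_congr rfl fun i _ => ?_
  simp [Polynomial.eval_mul, Polynomial.eval_pow, Polynomial.eval_add, Polynomial.eval_X,
    Polynomial.eval_C]

/-- `fk` for arbitrary decidability instances -/
private theorem fk_inst [iV : DecidableEq V] [iE : DecidableEq E] (Q : ℕ) (w z : E → ℝ) :
    ∑ σ : V → Fin Q, ∏ e, (z e + if σ (φ e).1 = σ (φ e).2 then w e else 0) =
      ∑ A : Finset E, (Q : ℝ) ^ kk φ A * (∏ e ∈ A, w e) * ∏ e ∈ univ \ A, z e := by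
  have h1 : iV = fun a b => Classical.propDecidable (a = b) := Subsingleton.elim _ _
  have h2 : iE = fun a b => Classical.propDecidable (a = b) := Subsingleton.elim _ _
  subst h1
  subst h2
  exact fk φ Q w z

open Classical in
theorem fat_poly (c : E → ℕ) (m : ℕ) (q γ : ℝ) :
    zz (fat φ c m) q (fun _ => γ) =
      ∑ A : Finset E, q ^ kk φ A * (∏ e ∈ A, ((1 + γ) ^ m - 1) ^ (c e + 1)) *
        ∏ e ∈ univ \ A, PP ((1 + γ) ^ m - 1) (c e + 1) q := by
  set P1 : Polynomial ℝ := ∑ A : Finset ((Σ e : E, Fin (c e + 1)) × Fin m),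
    Polynomial.X ^ kk (fat φ c m) A * Polynomial.C (∏ _e ∈ A, γ) with hP1
  set P2 : Polynomial ℝ := ∑ A : Finset E, Polynomial.X ^ kk φ A *
    Polynomial.C (∏ e ∈ A, ((1 + γ) ^ m - 1) ^ (c e + 1)) *
      ∏ e ∈ univ \ A, PPp ((1 + γ) ^ m - 1) (c e + 1) with hP2
  have h1 : ∀ t : ℝ, P1.eval t = zz (fat φ c m) t (fun _ => γ) := by
    intro t
    rw [hP1, Polynomial.eval_finsetSum]
    unfold zz
    refine Finset.sum_congr rfl fun A _ => ?_
    rw [Polynomial.eval_mul, Polynomial.eval_pow, Polynomial.eval_X, Polynomial.eval_C]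
  have h2 : ∀ t : ℝ, P2.eval t = ∑ A : Finset E, t ^ kk φ A *
      (∏ e ∈ A, ((1 + γ) ^ m - 1) ^ (c e + 1)) *
        ∏ e ∈ univ \ A, PP ((1 + γ) ^ m - 1) (c e + 1) t := by
    intro t
    rw [hP2, Polynomial.eval_finsetSum]
    refine Finset.sum_congr rfl fun A _ => ?_
    rw [Polynomial.eval_mul, Polynomial.eval_mul, Polynomial.eval_pow, Polynomial.eval_X,
      Polynomial.eval_C, Polynomial.eval_prod]
    congr 1
    refine Finset.prod_congr rfl fun e _ => ?_
    rw [PPp_eval]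
  have hnat : ∀ Q : ℕ, P1.eval (Q : ℝ) = P2.eval (Q : ℝ) := by
    intro Q
    rw [h1, h2, ← fk φ Q (fun e => ((1 + γ) ^ m - 1) ^ (c e + 1))
      (fun e => PP ((1 + γ) ^ m - 1) (c e + 1) (Q : ℝ)), ← potts_fat φ c m Q γ]
    have h' : ∑ σ : (V ⊕ (Σ e : E, Fin (c e))) → Fin Q,
        ∏ f : (Σ e : E, Fin (c e + 1)) × Fin m,
          ((1 : ℝ) + if σ (fat φ c m f).1 = σ (fat φ c m f).2 then γ else 0) =
        ∑ A : Finset ((Σ e : E, Fin (c e + 1)) × Fin m),
          (Q : ℝ) ^ kk (fat φ c m) A * (∏ _e ∈ A, γ) * ∏ _e ∈ univ \ A, (1 : ℝ) := by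
      exact fk_inst (fat φ c m) Q (fun _ => γ) (fun _ => 1)
    rw [h']
    unfold zz
    refine Finset.sum_congr rfl fun A _ => ?_
    simp
  have hEq : P1 = P2 := by
    refine Polynomial.eq_of_infinite_eval_eq P1 P2 ?_
    refine Set.Infinite.mono ?_ (Set.infinite_range_of_injective
      (f := fun n : ℕ => (n : ℝ)) Nat.cast_injective)
    rintro _ ⟨Q, rfl⟩
    exact hnat Q
  rw [← h1, hEq, h2]

theorem PP_pos {g q : ℝ} (hg : 0 < g) (hq : 0 < q) (L : ℕ) (hL : 1 ≤ L) : 0 < PP g L q := by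
  unfold PP
  refine Finset.sum_pos (fun i _ => by positivity) ?_
  exact ⟨0, Finset.mem_range.2 (by omega)⟩

theorem fat_weff (c : E → ℕ) (m : ℕ) (hm : 1 ≤ m) {q γ : ℝ} (hq : 0 < q) (hγ : 0 < γ) :
    zz (fat φ c m) q (fun _ => γ) =
      (∏ e, PP ((1 + γ) ^ m - 1) (c e + 1) q) *
        zz φ q (fun e => weff ((1 + γ) ^ m - 1) (c e + 1) q) := by
  classical
  have hg : 0 < (1 + γ) ^ m - 1 := by
    have : 1 < (1 + γ) ^ m := one_lt_pow₀ (by linarith) (by omega)
    linarith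
  have hP : ∀ e : E, 0 < PP ((1 + γ) ^ m - 1) (c e + 1) q := fun e =>
    PP_pos hg hq _ (by omega)
  rw [fat_poly]
  unfold zz
  rw [Finset.mul_sum]
  refine Finset.sum_congr rfl fun A _ => ?_
  have hsplit : ∏ e, PP ((1 + γ) ^ m - 1) (c e + 1) q =
      (∏ e ∈ univ \ A, PP ((1 + γ) ^ m - 1) (c e + 1) q) *
        ∏ e ∈ A, PP ((1 + γ) ^ m - 1) (c e + 1) q :=
    (Finset.prod_sdiff (Finset.subset_univ A)).symm
  have hA : (∏ e ∈ A, PP ((1 + γ) ^ m - 1) (c e + 1) q) *
      ∏ e ∈ A, weff ((1 + γ) ^ m - 1) (c e + 1) q =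
      ∏ e ∈ A, ((1 + γ) ^ m - 1) ^ (c e + 1) := by
    rw [← Finset.prod_mul_distrib]
    refine Finset.prod_congr rfl fun e _ => ?_
    unfold weff
    have := (hP e).ne'
    field_simp
  rw [hsplit, ← hA]
  ring

end Pool.Agent.Work.MP_63853a_lc
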