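import Pool.Agent.Work.MP_63853a_lc.KBasic

set_option autoImplicit false

/-!
# TutteZ (size S-M): the Tutte polynomial as a partition function

Exponents (natural numbers): `kk univ ≤ kk A ≤ n`, `n ≤ kk A + A.card` (`kk_anti`, `kk_le`, `card_le`), so
`kk univ + (rk univ - rk A) = kk A` and `n + (A.card - rk A) = A.card + kk A`.
`est_mean`: `wt (1 - 1/y) A = (y-1)^A.card / y^(card E)`.
-/

namespace Pool.Agent.Work.MP_63853a_lc

open Finset

variable {V E : Type} [Fintype V] [Fintype E] (φ : E → V × V)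

private theorem exps (A : Finset E) :
    kk φ univ + (rk φ univ - rk φ A) = kk φ A ∧
      Fintype.card V + (A.card - rk φ A) = A.card + kk φ A := by
  have h1 := kk_anti φ (subset_univ A)
  have h2 := kk_le φ A
  have h3 := card_le φ A
  have h4 := kk_le φ (univ : Finset E)
  unfold rk
  omega

theorem tutte_zz (x y : ℝ) : (x - 1) ^ kk φ univ * (y - 1) ^ Fintype.card V * tutte φ x y =
    zz φ ((x - 1) * (y - 1)) (fun _ => y - 1) := by
  unfold tutte zz
  rw [Finset.mul_sum]
  refine Finset.sum_congr rfl fun A _ => ?_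
  obtain ⟨h1, h2⟩ := exps φ A
  rw [Finset.prod_const]
  calc (x - 1) ^ kk φ univ * (y - 1) ^ Fintype.card V *
        ((x - 1) ^ (rk φ univ - rk φ A) * (y - 1) ^ (A.card - rk φ A))
      = (x - 1) ^ (kk φ univ + (rk φ univ - rk φ A)) * (y - 1) ^ (Fintype.card V + (A.card - rk φ A)) := by
        rw [pow_add, pow_add]
        ring
    _ = ((x - 1) * (y - 1)) ^ kk φ A * (y - 1) ^ A.card := by
        rw [h1, h2, mul_pow, pow_add]
        ring

theorem tutte_pos {x y : ℝ} (hx : 1 < x) (hy : 1 < y) : 0 < tutte φ x y := by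
  unfold tutte
  have hx' : 0 < x - 1 := by linarith
  have hy' : 0 < y - 1 := by linarith
  exact Finset.sum_pos (fun A _ => by positivity) ⟨∅, mem_univ _⟩

theorem est_mean {x y : ℝ} (hx : 1 < x) (hy : 1 < y) :
    ∑ A : Finset E, wt (1 - 1 / y) A * est φ x y A = tutte φ x y := by
  have hx' : 0 < x - 1 := by linarith
  have hy' : 0 < y - 1 := by linarith
  have hy0 : 0 < y := by linarith
  have hden : (x - 1) ^ kk φ univ * (y - 1) ^ Fintype.card V ≠ 0 := by positivity
  have hz := tutte_zz φ x y
  have hsum : ∑ A : Finset E, wt (1 - 1 / y) A * est φ x y A =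
      zz φ ((x - 1) * (y - 1)) (fun _ => y - 1) / ((x - 1) ^ kk φ univ * (y - 1) ^ Fintype.card V) := by
    unfold zz
    rw [Finset.sum_div]
    refine Finset.sum_congr rfl fun A _ => ?_
    unfold wt est
    rw [Finset.prod_const]
    have h1 : (1 - 1 / y : ℝ) = (y - 1) / y := by
      field_simp
    have h2 : (1 - (1 - 1 / y) : ℝ) = 1 / y := by ring
    rw [h2, h1, div_pow, one_div, inv_pow]
    have hc : A.card ≤ Fintype.card E := card_le_univ A
    have h3 : y ^ Fintype.card E = y ^ A.card * y ^ (Fintype.card E - A.card) := by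
      rw [← pow_add, Nat.add_sub_cancel' hc]
    rw [h3]
    have h4 : y ^ A.card ≠ 0 := by positivity
    have h5 : y ^ (Fintype.card E - A.card) ≠ 0 := by positivity
    field_simp
  rw [hsum, ← hz, mul_div_assoc, mul_comm, div_mul_cancel₀]
  exact hden

end Pool.Agent.Work.MP_63853a_lc
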