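import Pool.Agent.Work.MP_63853a_lc.Params
import Pool.Agent.Work.MP_63853a_lc.FatCut
import Pool.Agent.Work.MP_63853a_lc.Apex
import Pool.Agent.Work.MP_63853a_lc.FatZ
import Pool.Agent.Work.MP_63853a_lc.TutteZ
import Pool.Agent.Work.MP_63853a_lc.Cross

set_option autoImplicit false

/-!
# NegMain (size M): the reduction

`card_HV`: `card V + 1 + card E * a + 2 * card V * b`, `card_HE`: `(card E * (a+1) + 2 * card V * (b+1)) * m`.
`sandwich`: with `q = (x-1)(y-1)`, `g = y^m - 1`: by `tutte_zz` for `gad φ a b m` (whose `kk univ` is `1` by `one_component`,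
`gad_econn`), `fat_weff` with `γ = y - 1` (`1 + γ = y`) and `∏ e, PP g (len a b e + 1) q = PP g (a+1) q ^ card E * PP g (b+1) q ^ (2 * card V)`,
`(x-1) * (y-1)^card HV * tutte (gad ..) = PP^.. * PP^.. * zz (apex φ) q (Sum.elim (weff g (a+1) q) (weff g (b+1) q))`. So by the
definition of `scale`, `scale * tutte (gad ..) = zz (apex φ) q (..) / (q * (x-1)^kk univ * (y-1)^card V)`, and
`zz φ q (y-1) = (x-1)^kk univ * (y-1)^card V * tutte φ x y`; `apex_lower`, `apex_upper`, `zz_mono`, `zz_upper`.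
-/

namespace Pool.Agent.Work.MP_63853a_lc

open Finset

theorem card_HV (V E : Type) [Fintype V] [Fintype E] (a b : ℕ) :
    Fintype.card (HV V E a b) = Fintype.card V + 1 + Fintype.card E * a + 2 * Fintype.card V * b := by
  unfold HV
  rw [Fintype.card_sum, Fintype.card_option, Fintype.card_sigma]
  simp_rw [Fintype.card_fin]
  rw [Fintype.sum_sum_type]
  simp only [len, sum_const, card_univ, smul_eq_mul, Fintype.card_prod, Fintype.card_bool]
  ring

theorem card_HE (V E : Type) [Fintype V] [Fintype E] (a b m : ℕ) :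
    Fintype.card (HE V E a b m) =
      (Fintype.card E * (a + 1) + 2 * Fintype.card V * (b + 1)) * m := by
  unfold HE
  rw [Fintype.card_prod, Fintype.card_sigma]
  simp_rw [Fintype.card_fin]
  rw [Fintype.sum_sum_type]
  simp only [len, sum_const, card_univ, smul_eq_mul, Fintype.card_prod, Fintype.card_bool]
  ring

private theorem gad_zz {V E : Type} [Fintype V] [Nonempty V] [Fintype E] (φ : E → V × V) {x y : ℝ}
    (hx : 1 < x) (hy : 1 < y) {a b m : ℕ} (hm : 1 ≤ m) :
    (x - 1) * (y - 1) ^ Fintype.card (HV V E a b) * tutte (gad φ a b m) x y =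
      (PP (y ^ m - 1) (a + 1) ((x - 1) * (y - 1)) ^ Fintype.card E *
        PP (y ^ m - 1) (b + 1) ((x - 1) * (y - 1)) ^ (2 * Fintype.card V)) *
      zz (apex φ) ((x - 1) * (y - 1))
        (Sum.elim (fun _ => weff (y ^ m - 1) (a + 1) ((x - 1) * (y - 1)))
          fun _ => weff (y ^ m - 1) (b + 1) ((x - 1) * (y - 1))) := by
  have hq : 0 < (x - 1) * (y - 1) := mul_pos (by linarith) (by linarith)
  have h1 : kk (gad φ a b m) univ = 1 := by
    refine one_component (gad φ a b m) (c := 2 * m) ?_ (gad_econn φ a b m)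
    have : (1 : ℝ) ≤ m := by exact_mod_cast hm
    linarith
  have h2 := tutte_zz (gad φ a b m) x y
  rw [h1, pow_one] at h2
  have h3 := fat_weff (apex φ) (len a b) m hm hq (show 0 < y - 1 by linarith)
  have h4 : 1 + (y - 1) = y := by ring
  rw [h4] at h3
  rw [h2]
  show zz (fat (apex φ) (len a b) m) _ _ = _
  rw [h3]
  congr 1
  · rw [Fintype.prod_sum_type]
    simp only [len, prod_const, card_univ, Fintype.card_prod, Fintype.card_bool]
    rw [mul_comm 2 (Fintype.card V)]
  · congr 1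
    funext e
    cases e <;> rfl

theorem sandwich {V E : Type} [Fintype V] [Nonempty V] [Fintype E] (φ : E → V × V) {x y : ℝ}
    (hx : 1 < x) (hy : 1 < y) (hq : 1 ≤ (x - 1) * (y - 1)) {a b m : ℕ} (hm : 1 ≤ m) {η θ : ℝ}
    (hη : 0 ≤ η) (hθ : 0 ≤ θ)
    (h1 : y - 1 ≤ weff (y ^ m - 1) (a + 1) ((x - 1) * (y - 1)))
    (h2 : weff (y ^ m - 1) (a + 1) ((x - 1) * (y - 1)) ≤ (1 + η) * (y - 1))
    (h3 : weff (y ^ m - 1) (b + 1) ((x - 1) * (y - 1)) ≤ θ) :
    tutte φ x y ≤ scale φ x y a b m * tutte (gad φ a b m) x y ∧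
      scale φ x y a b m * tutte (gad φ a b m) x y ≤
        (1 + η) ^ Fintype.card E * (1 + θ) ^ (2 * Fintype.card V) * tutte φ x y := by
  have hq0 : 0 < (x - 1) * (y - 1) := by linarith
  have hx0 : 0 < x - 1 := by linarith
  have hy0 : 0 < y - 1 := by linarith
  have hg : 0 < y ^ m - 1 := by
    have := one_lt_pow₀ hy (show m ≠ 0 by omega)
    linarith
  have hPa := PP_pos hg hq0 (a + 1) (by omega)
  have hPb := PP_pos hg hq0 (b + 1) (by omega)
  have hwa := weff_pos hg hq0 (a + 1) (by omega)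
  have hwb := weff_pos hg hq0 (b + 1) (by omega)
  have hz := gad_zz φ hx hy (a := a) (b := b) hm
  have ht := tutte_zz φ x y
  set q : ℝ := (x - 1) * (y - 1) with hqdef
  set g : ℝ := y ^ m - 1 with hgdef
  set D : ℝ := (x - 1) ^ kk φ univ * (y - 1) ^ Fintype.card V with hD
  have hD0 : 0 < D := by positivity
  set P : ℝ := PP g (a + 1) q ^ Fintype.card E * PP g (b + 1) q ^ (2 * Fintype.card V) with hP
  have hP0 : 0 < P := by positivity
  set Z : ℝ := zz (apex φ) q (Sum.elim (fun _ => weff g (a + 1) q) fun _ => weff g (b + 1) q) with hZ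
  have hscale : scale φ x y a b m * tutte (gad φ a b m) x y = Z / (q * D) := by
    have e1 : scale φ x y a b m = (x - 1) * (y - 1) ^ Fintype.card (HV V E a b) / (q * P * D) := by
      unfold scale
      rw [← hqdef, ← hgdef, ← hD, hP]
      congr 1
      ring
    rw [e1, div_mul_eq_mul_div, hz]
    rw [div_eq_div_iff (by positivity) (by positivity)]
    ring
  have hlow : q * zz φ q (fun _ => weff g (a + 1) q) ≤ Z :=
    apex_lower φ hq hwb.le _ fun _ => hwa.le
  have hup : Z ≤ (1 + weff g (b + 1) q) ^ (2 * Fintype.card V) *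
      (q * zz φ q (fun _ => weff g (a + 1) q)) :=
    apex_upper φ hq hwb.le _ fun _ => hwa.le
  have hm1 : zz φ q (fun _ => y - 1) ≤ zz φ q (fun _ => weff g (a + 1) q) :=
    zz_mono φ hq0.le _ _ (fun _ => hy0.le) fun _ => h1
  have hm2 : zz φ q (fun _ => weff g (a + 1) q) ≤
      (1 + η) ^ Fintype.card E * zz φ q (fun _ => y - 1) :=
    zz_upper φ hq0.le hη _ _ (fun _ => hy0.le) (fun _ => hwa.le) fun _ => h2
  have hT : 0 < tutte φ x y := tutte_pos φ hx hy
  rw [hscale]
  constructor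
  · rw [le_div_iff₀ (by positivity)]
    calc tutte φ x y * (q * D) = q * (D * tutte φ x y) := by ring
      _ = q * zz φ q (fun _ => y - 1) := by rw [ht]
      _ ≤ q * zz φ q (fun _ => weff g (a + 1) q) := mul_le_mul_of_nonneg_left hm1 hq0.le
      _ ≤ Z := hlow
  · rw [div_le_iff₀ (by positivity)]
    have hz0 : 0 ≤ zz φ q (fun _ => y - 1) := by rw [← ht]; positivity
    calc Z ≤ (1 + weff g (b + 1) q) ^ (2 * Fintype.card V) *
          (q * zz φ q (fun _ => weff g (a + 1) q)) := hup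
      _ ≤ (1 + θ) ^ (2 * Fintype.card V) *
          (q * ((1 + η) ^ Fintype.card E * zz φ q (fun _ => y - 1))) := by
        apply mul_le_mul
        · exact pow_le_pow_left₀ (by linarith) (by linarith) _
        · exact mul_le_mul_of_nonneg_left hm2 hq0.le
        · exact mul_nonneg hq0.le (le_trans hz0 hm1)
        · positivity
      _ = (1 + η) ^ Fintype.card E * (1 + θ) ^ (2 * Fintype.card V) * tutte φ x y * (q * D) := by
        rw [← ht]
        ring

theorem neg_main (x y : ℝ) (hx : 1 < x) (hy : 1 < y) (hq : 1 ≤ (x - 1) * (y - 1)) (α : ℝ)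
    (hα : α < 2 / Real.log y) :
    ∃ C : ℕ, ∀ (V E : Type) [Fintype V] [Nonempty V] [Fintype E] (φ : E → V × V) (δ : ℝ),
      0 < δ → δ ≤ 1 → ∃ a b m : ℕ,
        ((Fintype.card (HV V E a b) + Fintype.card (HE V E a b m) : ℕ) : ℝ) ≤
          C * ((Fintype.card V + Fintype.card E : ℕ) / δ) ^ C ∧
        EConn (gad φ a b m) (α * Real.log (Fintype.card (HV V E a b))) ∧
        tutte φ x y ≤ scale φ x y a b m * tutte (gad φ a b m) x y ∧
        scale φ x y a b m * tutte (gad φ a b m) x y ≤ (1 + δ) * tutte φ x y := by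
  obtain ⟨C, hC⟩ := params hx hy hα
  refine ⟨C, fun V E _ _ _ φ δ hδ hδ1 => ?_⟩
  obtain ⟨a, b, m, η, θ, hm, hη, hθ, hsize, hlog, h1, h2, h3, h4⟩ :=
    hC (Fintype.card V) (Fintype.card E) δ Fintype.card_pos hδ hδ1
  have hs := sandwich φ hx hy hq hm hη hθ h1 h2 h3
  refine ⟨a, b, m, ?_, ?_, hs.1, hs.2.trans ?_⟩
  · rw [card_HV, card_HE]
    exact hsize
  · intro S hS hS'
    rw [card_HV]
    exact hlog.trans (gad_econn φ a b m S hS hS')
  · exact mul_le_mul_of_nonneg_right h4 (tutte_pos φ hx hy).le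

end Pool.Agent.Work.MP_63853a_lc
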