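import Pool.Agent.Work.MP_63853a_lc.Defs

set_option autoImplicit false

/-!
# Russo (size M): derivative of expectations

`wd_sum`: write `n = Fintype.card E`, `u = exp (-t)`. The first part is
`∑ A, ∑ e ∈ A, u * (1-u)^(A.card-1) * u^(n-A.card) * G A`; with `A = insert e B`, `e ∉ B`, this is
`∑ B, ∑ e ∈ univ \ B, (1-u)^B.card * u^(n-B.card) * G (insert e B)` (as `n - B.card ≥ 1`); the bijection of pairs is
`Finset.sum_sigma'` and `Finset.sum_bij'`. The second part is `∑ B, ∑ e ∈ univ \ B, wt .. B * G B`.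
-/

namespace Pool.Agent.Work.MP_63853a_lc

open Finset

variable {E : Type} [Fintype E]

theorem wt_deriv (A : Finset E) (t : ℝ) :
    HasDerivAt (fun t : ℝ => wt (1 - Real.exp (-t)) A) (wd t A) t := by
  have h1 : HasDerivAt (fun t : ℝ => Real.exp (-t)) (-Real.exp (-t)) t := by
    have := (hasDerivAt_neg t).exp
    simpa using this
  have h2 : HasDerivAt (fun t : ℝ => 1 - Real.exp (-t)) (Real.exp (-t)) t := by
    simpa using h1.const_sub 1
  have h3 := (h2.pow A.card).mul (h1.pow (Fintype.card E - A.card))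
  have hf : (fun t : ℝ => wt (1 - Real.exp (-t)) A) =
      ((fun t : ℝ => 1 - Real.exp (-t)) ^ A.card * (fun t : ℝ => Real.exp (-t)) ^ (Fintype.card E - A.card)) := by
    funext s
    simp [wt]
  rw [hf]
  refine h3.congr_deriv ?_
  unfold wd
  simp only [Pi.pow_apply]
  clear h3 hf
  generalize Fintype.card E - A.card = b
  rcases Nat.eq_zero_or_pos b with h0 | h0
  · simp [h0]
    ring
  · obtain ⟨c, rfl⟩ : ∃ c, b = c + 1 := ⟨b - 1, by omega⟩
    simp only [Nat.add_sub_cancel]
    ring

open Classical in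
theorem wd_sum (G : Finset E → ℝ) (t : ℝ) : ∑ A : Finset E, wd t A * G A =
    ∑ A : Finset E, wt (1 - Real.exp (-t)) A * ∑ e ∈ univ \ A, (G (insert e A) - G A) := by
  set u := Real.exp (-t) with hu
  have e1 : ∀ A : Finset E, wd t A * G A =
      (∑ e ∈ A, u * (1 - u) ^ (A.card - 1) * u ^ (Fintype.card E - A.card) * G A) -
        ∑ e ∈ univ \ A, (1 - u) ^ A.card * u ^ (Fintype.card E - A.card) * G A := by
    intro A
    have hc : (univ \ A).card = Fintype.card E - A.card := by
      rw [← Finset.compl_eq_univ_sdiff, Finset.card_compl]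
    rw [Finset.sum_const, Finset.sum_const, hc, nsmul_eq_mul, nsmul_eq_mul]
    simp only [wd, ← hu]
    ring
  have e2 : ∀ A : Finset E, wt (1 - u) A * ∑ e ∈ univ \ A, (G (insert e A) - G A) =
      (∑ e ∈ univ \ A, (1 - u) ^ A.card * u ^ (Fintype.card E - A.card) * G (insert e A)) -
        ∑ e ∈ univ \ A, (1 - u) ^ A.card * u ^ (Fintype.card E - A.card) * G A := by
    intro A
    rw [← Finset.sum_sub_distrib, Finset.mul_sum]
    refine Finset.sum_congr rfl fun e _ => ?_
    simp only [wt, sub_sub_cancel]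
    ring
  rw [Finset.sum_congr rfl fun A _ => e1 A, Finset.sum_congr rfl fun A _ => e2 A, Finset.sum_sub_distrib,
    Finset.sum_sub_distrib]
  congr 1
  rw [Finset.sum_sigma', Finset.sum_sigma']
  refine Finset.sum_bij' (fun (x : Σ _ : Finset E, E) _ => (⟨x.1.erase x.2, x.2⟩ : Σ _ : Finset E, E))
    (fun (x : Σ _ : Finset E, E) _ => (⟨insert x.2 x.1, x.2⟩ : Σ _ : Finset E, E)) ?_ ?_ ?_ ?_ ?_
  · rintro ⟨A, e⟩ h
    simp at h ⊢
  · rintro ⟨A, e⟩ h
    simp at h ⊢
  · rintro ⟨A, e⟩ h
    simp only [Finset.mem_sigma, Finset.mem_univ, true_and] at h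
    simp [Finset.insert_erase h]
  · rintro ⟨A, e⟩ h
    simp only [Finset.mem_sigma, Finset.mem_univ, true_and, Finset.mem_sdiff] at h
    simp [Finset.erase_insert h]
  · rintro ⟨A, e⟩ h
    simp only [Finset.mem_sigma, Finset.mem_univ, true_and] at h
    have hc : (A.erase e).card + 1 = A.card := Finset.card_erase_add_one h
    have hn : A.card ≤ Fintype.card E := Finset.card_le_univ A
    simp only [Finset.insert_erase h]
    have h1 : A.card - 1 = (A.erase e).card := by omega
    have h2 : Fintype.card E - (A.erase e).card = (Fintype.card E - A.card) + 1 := by omega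
    rw [h1, h2, pow_succ]
    ring

/-- at time zero only the empty set has positive probability -/
theorem wt_zero_sum (G : Finset E → ℝ) : ∑ A : Finset E, wt (1 - Real.exp (-0)) A * G A = G ∅ := by
  have h : (1 : ℝ) - Real.exp (-0) = 0 := by simp
  rw [h, Finset.sum_eq_single ∅]
  · simp [wt]
  · intro A _ hA
    have : A.card ≠ 0 := by
      rw [Ne, Finset.card_eq_zero]
      exact hA
    simp [wt, this]
  · simp

theorem wt_nonneg {p : ℝ} (h0 : 0 ≤ p) (h1 : p ≤ 1) (A : Finset E) : 0 ≤ wt p A :=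
  mul_nonneg (pow_nonneg h0 _) (pow_nonneg (by linarith) _)

theorem wt_sum (p : ℝ) : ∑ A : Finset E, wt p A = 1 := by
  simp only [wt]
  rw [Fintype.sum_pow_mul_eq_add_pow]
  simp

end Pool.Agent.Work.MP_63853a_lc
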