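import Pool.Agent.Work.MP_63853a_lc.Defs

set_option autoImplicit false

/-!
# KBasic (size M): the number of components

`kk_insert_cross`: `kk φ A = Nat.card (Cl φ A)` (by `rfl`). With `a = cls (φ e).1 ≠ b = cls (φ e).2` in `Cl φ A` the
components of `insert e A` are in bijection with `{c : Cl φ A // c ≠ b}`: map `Cl φ (insert e A) → Cl φ A` by
`Quot.lift (fun v => if cls φ A v = b then a else cls φ A v)`, and back by `Quot.lift (Quot.mk _)`.
`kk_insert_eq`: the same map for `a = b` is a bijection.
`card_le`: induction on `A` from the two insert lemmas. (`Finset.induction_on`.)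
-/

namespace Pool.Agent.Work.MP_63853a_lc

open Finset

variable {V E : Type} (φ : E → V × V)

private theorem cls_eq_of_mem {A : Finset E} {e : E} (he : e ∈ A) :
    cls φ A (φ e).1 = cls φ A (φ e).2 :=
  Quot.sound ⟨e, he, rfl⟩

/-- the map from the components of `A` to those of a larger set -/
private def bk {A B : Finset E} (h : A ⊆ B) : Cl φ A → Cl φ B :=
  Quot.lift (fun v => cls φ B v) (by
    rintro u v ⟨e, he, huv⟩
    exact Quot.sound ⟨e, h he, huv⟩)

private theorem bk_cls {A B : Finset E} (h : A ⊆ B) (v : V) : bk φ h (cls φ A v) = cls φ B v := rfl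

theorem kk_empty [Fintype V] : kk φ ∅ = Fintype.card V := by
  rw [← Nat.card_eq_fintype_card]
  refine Nat.card_congr
    { toFun := Quot.lift id (by
        rintro u v ⟨e, he, _⟩
        simp at he)
      invFun := Quot.mk _
      left_inv := ?_
      right_inv := ?_ }
  · rintro ⟨v⟩
    rfl
  · intro v
    rfl

theorem not_cross_of_mem {A : Finset E} {e : E} (he : e ∈ A) : ¬ Cross φ A e := fun h =>
  h (cls_eq_of_mem φ he)

open Classical in
theorem kk_insert_eq {A : Finset E} {e : E} (he : ¬ Cross φ A e) : kk φ (insert e A) = kk φ A := by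
  have he' : cls φ A (φ e).1 = cls φ A (φ e).2 := by
    by_contra h
    exact he h
  refine Nat.card_congr
    { toFun := Quot.lift (fun v => cls φ A v) (by
        rintro u v ⟨e', he1, huv⟩
        rcases Finset.mem_insert.1 he1 with rfl | he1
        · rw [huv] at he'
          exact he'
        · exact Quot.sound ⟨e', he1, huv⟩)
      invFun := bk φ (Finset.subset_insert e A)
      left_inv := ?_
      right_inv := ?_ }
  · rintro ⟨v⟩
    rfl
  · rintro ⟨v⟩
    rfl

open Classical in
theorem kk_insert_cross [Finite V] {A : Finset E} {e : E} (he : Cross φ A e) :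
    kk φ (insert e A) + 1 = kk φ A := by
  have hne : cls φ A (φ e).1 ≠ cls φ A (φ e).2 := he
  have hfin : Finite (Cl φ A) := Quot.finite _
  let f : Cl φ (insert e A) → Cl φ A := Quot.lift
    (fun v => if cls φ A v = cls φ A (φ e).2 then cls φ A (φ e).1 else cls φ A v) (by
      rintro u v ⟨e', he1, huv⟩
      rcases Finset.mem_insert.1 he1 with rfl | he1
      · rw [huv] at hne ⊢
        simp [hne]
      · have h1 : cls φ A u = cls φ A v := Quot.sound ⟨e', he1, huv⟩
        simp only [h1])
  have hf : ∀ v, f (cls φ (insert e A) v) =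
    if cls φ A v = cls φ A (φ e).2 then cls φ A (φ e).1 else cls φ A v := fun v => rfl
  have hf1 : ∀ x, f x ≠ cls φ A (φ e).2 := by
    rintro ⟨v⟩
    change f (cls φ (insert e A) v) ≠ _
    rw [hf]
    split_ifs with h
    · exact hne
    · exact h
  have hcard : kk φ (insert e A) = Nat.card {c : Cl φ A // c ≠ cls φ A (φ e).2} := by
    refine Nat.card_congr
      { toFun := fun x => ⟨f x, hf1 x⟩
        invFun := fun c => bk φ (Finset.subset_insert e A) c.1
        left_inv := ?_
        right_inv := ?_ }
    · rintro ⟨v⟩
      change bk φ _ (f (cls φ (insert e A) v)) = cls φ (insert e A) v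
      rw [hf]
      split_ifs with h
      · rw [bk_cls, cls_eq_of_mem φ (Finset.mem_insert_self e A),
          ← bk_cls φ (Finset.subset_insert e A), ← h, bk_cls]
      · rw [bk_cls]
    · rintro ⟨⟨v⟩, hv⟩
      have hv' : cls φ A v ≠ cls φ A (φ e).2 := hv
      refine Subtype.ext ?_
      change f (bk φ (Finset.subset_insert e A) (cls φ A v)) = cls φ A v
      rw [bk_cls, hf, if_neg hv']
  have hkk : kk φ A = Nat.card (Cl φ A) := rfl
  have := Fintype.ofFinite (Cl φ A)
  rw [hcard, hkk, Nat.card_eq_fintype_card, Nat.card_eq_fintype_card, Fintype.card_subtype,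
    Finset.filter_ne', Finset.card_erase_add_one (Finset.mem_univ _), Finset.card_univ]

theorem kk_anti [Finite V] {A B : Finset E} (h : A ⊆ B) : kk φ B ≤ kk φ A := by
  have hfin : Finite (Cl φ A) := Quot.finite _
  refine Nat.card_le_card_of_surjective (bk φ h) ?_
  rintro ⟨v⟩
  exact ⟨cls φ A v, rfl⟩

theorem kk_pos [Finite V] [Nonempty V] (A : Finset E) : 1 ≤ kk φ A := by
  have hfin : Finite (Cl φ A) := Quot.finite _
  have hne : Nonempty (Cl φ A) := ⟨cls φ A (Classical.arbitrary V)⟩
  exact Nat.card_pos

theorem kk_le [Fintype V] (A : Finset E) : kk φ A ≤ Fintype.card V := by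
  rw [← Nat.card_eq_fintype_card]
  refine Nat.card_le_card_of_surjective (cls φ A) ?_
  rintro ⟨v⟩
  exact ⟨v, rfl⟩

/-- the rank of `A` is at most the number of elements of `A` -/
theorem card_le [Fintype V] (A : Finset E) : Fintype.card V ≤ kk φ A + A.card := by
  classical
  induction A using Finset.induction_on with
  | empty => rw [kk_empty, Finset.card_empty, add_zero]
  | insert e A he ih =>
    rw [Finset.card_insert_of_notMem he]
    by_cases h : Cross φ A e
    · have h1 := kk_insert_cross φ h
      omega
    · have h1 := kk_insert_eq φ h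
      omega

end Pool.Agent.Work.MP_63853a_lc
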