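import Pool.Agent.Work.MP_63853a_lc.Cross
import Pool.Agent.Work.MP_63853a_lc.Russo

set_option autoImplicit false

/-!
# Moment (size M): exponential moments of the number of components

Let `s t = 1 + (q - 1) * exp (c * (t - T) / 2) ≥ 1`, so `s' = c / 2 * (s - 1)`, and
`F t = ∑ A, wt (1 - exp (-t)) A * s t ^ ((kk φ A : ℤ) - m)`. By `wt_deriv`, `wd_sum` and the derivative of the zpow
`F' t = ∑ A, wt .. A * (∑ e ∈ univ \ A, (s^(kk (insert e A) - m) - s^(kk A - m)) + (kk A - m) * s^(kk A - m - 1) * s')`.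
The inner sum is `- cr φ A * (1 - 1/s) * s^(kk A - m)` (`kk_insert_cross` for edges which cross, `kk_insert_eq` for the others;
an edge which crosses is not in `A`), the last term is `(kk A - m) * (c/2) * (1 - 1/s) * s^(kk A - m)`. So by `cross_bound`
`F' t ≤ 0` for `0 ≤ t` and `F T ≤ F 0` (`antitoneOn_of_deriv_nonpos`), `F 0 = s 0 ^ (n - m)` by `wt_zero_sum`, `kk_empty`.
-/

namespace Pool.Agent.Work.MP_63853a_lc

open Finset

variable {V E : Type} [Fintype V] [Fintype E] (φ : E → V × V)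

open Classical in
private theorem moment_inner {s : ℝ} (hs : 0 < s) (m : ℕ) (A : Finset E) :
    ∑ e ∈ univ \ A, (s ^ ((kk φ (insert e A) : ℤ) - m) - s ^ ((kk φ A : ℤ) - m)) =
      -(cr φ A : ℝ) * ((s - 1) * s ^ ((kk φ A : ℤ) - m - 1)) := by
  have hterm : ∀ e ∈ univ \ A, (s ^ ((kk φ (insert e A) : ℤ) - m) - s ^ ((kk φ A : ℤ) - m)) =
      if Cross φ A e then -((s - 1) * s ^ ((kk φ A : ℤ) - m - 1)) else 0 := by
    intro e _
    by_cases hc : Cross φ A e
    · rw [if_pos hc]
      have h1 := kk_insert_cross φ hc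
      have h2 : (kk φ (insert e A) : ℤ) - m = (kk φ A : ℤ) - m - 1 := by
        have : ((kk φ (insert e A) + 1 : ℕ) : ℤ) = (kk φ A : ℤ) := by rw [h1]
        push_cast at this
        linarith
      have h3 : s ^ ((kk φ A : ℤ) - m) = s * s ^ ((kk φ A : ℤ) - m - 1) := by
        rw [← zpow_one_add₀ hs.ne']
        congr 1
        ring
      rw [h2, h3]
      ring
    · rw [if_neg hc, kk_insert_eq φ hc, sub_self]
  rw [Finset.sum_congr rfl hterm, ← Finset.sum_filter, Finset.sum_const, nsmul_eq_mul]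
  have hcard : ((univ \ A).filter fun e => Cross φ A e).card = cr φ A := by
    unfold cr
    rw [← Set.ncard_coe_finset]
    congr 1
    ext e
    simp only [coe_filter, mem_sdiff, mem_univ, true_and, Set.mem_ofPred_eq, and_iff_right_iff_imp]
    intro h1 h2
    exact not_cross_of_mem φ h2 h1
  rw [hcard]
  ring

theorem moment {c q T : ℝ} (hc : 0 ≤ c) (hq : 1 ≤ q) (hT : 0 ≤ T) {m : ℕ} (h : Classes φ c m) :
    ∑ A : Finset E, wt (1 - Real.exp (-T)) A * q ^ ((kk φ A : ℤ) - m) ≤
      (1 + (q - 1) * Real.exp (-(c * T / 2))) ^ ((Fintype.card V : ℤ) - m) := by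
  classical
  set s : ℝ → ℝ := fun t => 1 + (q - 1) * Real.exp (c * (t - T) / 2) with hs
  have hs1 : ∀ t, 1 ≤ s t := fun t => by
    have : 0 ≤ (q - 1) * Real.exp (c * (t - T) / 2) :=
      mul_nonneg (by linarith) (Real.exp_pos _).le
    simp only [hs]
    linarith
  have hs0 : ∀ t, 0 < s t := fun t => lt_of_lt_of_le one_pos (hs1 t)
  have hsd : ∀ t, HasDerivAt s (c / 2 * (s t - 1)) t := fun t => by
    have h1 : HasDerivAt (fun t : ℝ => c * (t - T) / 2) (c / 2) t := by
      have := (((hasDerivAt_id t).sub_const T).const_mul c).div_const 2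
      simpa using this
    have h2 := (h1.exp.const_mul (q - 1)).const_add 1
    have h3 : s t = 1 + (q - 1) * Real.exp (c * (t - T) / 2) := rfl
    have h4 : c / 2 * (s t - 1) = (q - 1) * (Real.exp (c * (t - T) / 2) * (c / 2)) := by
      rw [h3]
      ring
    rw [h4]
    exact h2
  set F : ℝ → ℝ := fun t =>
    ∑ A : Finset E, wt (1 - Real.exp (-t)) A * s t ^ ((kk φ A : ℤ) - m) with hF
  have hFd : ∀ t, HasDerivAt F (∑ A : Finset E, (wd t A * s t ^ ((kk φ A : ℤ) - m) +
      wt (1 - Real.exp (-t)) A *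
        ((((kk φ A : ℤ) - m : ℤ) : ℝ) * s t ^ ((kk φ A : ℤ) - m - 1) * (c / 2 * (s t - 1))))) t := by
    intro t
    simp only [hF]
    apply HasDerivAt.fun_sum
    intro A _
    exact (wt_deriv A t).mul
      ((hasDerivAt_zpow ((kk φ A : ℤ) - m) (s t) (Or.inl (hs0 t).ne')).comp t (hsd t))
  have hFneg : ∀ t, 0 ≤ t → (∑ A : Finset E, (wd t A * s t ^ ((kk φ A : ℤ) - m) +
      wt (1 - Real.exp (-t)) A *
        ((((kk φ A : ℤ) - m : ℤ) : ℝ) * s t ^ ((kk φ A : ℤ) - m - 1) * (c / 2 * (s t - 1))))) ≤ 0 := by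
    intro t ht
    rw [Finset.sum_add_distrib, wd_sum (fun A => s t ^ ((kk φ A : ℤ) - m)) t,
      ← Finset.sum_add_distrib]
    apply Finset.sum_nonpos
    intro A _
    rw [moment_inner φ (hs0 t) m A, ← mul_add]
    have hw : 0 ≤ wt (1 - Real.exp (-t)) A := by
      apply wt_nonneg
      · have := Real.exp_le_one_iff.mpr (neg_nonpos.mpr ht)
        linarith
      · have := Real.exp_pos (-t)
        linarith
    apply mul_nonpos_of_nonneg_of_nonpos hw
    have hcb := cross_bound φ hc h A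
    have hz : 0 ≤ (s t - 1) * s t ^ ((kk φ A : ℤ) - m - 1) :=
      mul_nonneg (by linarith [hs1 t]) (zpow_pos (hs0 t) _).le
    have e1 : -(cr φ A : ℝ) * ((s t - 1) * s t ^ ((kk φ A : ℤ) - m - 1)) +
        (((kk φ A : ℤ) - m : ℤ) : ℝ) * s t ^ ((kk φ A : ℤ) - m - 1) * (c / 2 * (s t - 1)) =
        (c / 2 * ((kk φ A : ℝ) - m) - cr φ A) * ((s t - 1) * s t ^ ((kk φ A : ℤ) - m - 1)) := by
      push_cast
      ring
    rw [e1]
    exact mul_nonpos_of_nonpos_of_nonneg (by linarith) hz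
  have hanti : AntitoneOn F (Set.Ici 0) := by
    apply antitoneOn_of_deriv_nonpos (convex_Ici 0)
    · exact fun t _ => (hFd t).continuousAt.continuousWithinAt
    · exact fun t _ => (hFd t).differentiableAt.differentiableWithinAt
    · intro t ht
      rw [interior_Ici] at ht
      rw [(hFd t).deriv]
      exact hFneg t (le_of_lt ht)
  have hmain := hanti (Set.self_mem_Ici) (Set.mem_Ici.mpr hT) hT
  have hFT : F T = ∑ A : Finset E, wt (1 - Real.exp (-T)) A * q ^ ((kk φ A : ℤ) - m) := by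
    simp only [hF, hs]
    simp
  have hF0 : F 0 = (1 + (q - 1) * Real.exp (-(c * T / 2))) ^ ((Fintype.card V : ℤ) - m) := by
    have h1 := wt_zero_sum (E := E) (fun A => s 0 ^ ((kk φ A : ℤ) - m))
    simp only [hF]
    rw [h1, kk_empty φ]
    simp only [hs]
    congr 4
    ring
  rw [← hFT, ← hF0]
  exact hmain

end Pool.Agent.Work.MP_63853a_lc
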