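import Pool.Agent.Work.MP_63853a_lc.Defs

set_option autoImplicit false

/-!
# Cheb (size M): the inequality of Chebyshev for independent samples

`∑ ω, (∏ i, W (ω i)) = 1` (`Finset.prod_univ_sum` / `Fintype.piFinset`), and
`∑ ω, (∏ i, W (ω i)) * (∑ i, (X (ω i) - μ))^2 = N * (∑ o, W o * X o ^ 2 - μ^2) ≤ N * R * μ^2`
(for `i ≠ j` the mixed term is `0`; one way: prove by induction on `N` with `Fin.consEquiv` / `Fin.cons` the formula for the
second moment together with the first moment `0` and the total mass `1`). `N > 0` because `R ≥ 1` (Cauchy-Schwarz).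
On the complement of the event `(∑ i, (X (ω i) - μ))^2 > (N * ε * μ)^2`, so the mass of the complement is at most
`R / (N * ε^2) ≤ 1/4`.
-/

namespace Pool.Agent.Work.MP_63853a_lc

open Finset

open Classical in
private theorem mass {Ω : Type} [Fintype Ω] (W : Ω → ℝ) (h1 : ∑ o, W o = 1) (N : ℕ) :
    ∑ ω : Fin N → Ω, ∏ i, W (ω i) = 1 := by
  have h := Finset.prod_univ_sum (fun _ : Fin N => (Finset.univ : Finset Ω)) (fun _ o => W o)
  rw [Fintype.piFinset_univ] at h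
  rw [← h]
  exact Finset.prod_eq_one fun i _ => h1

open Classical in
private theorem mixed {Ω : Type} [Fintype Ω] (W Y : Ω → ℝ) (h1 : ∑ o, W o = 1)
    (h0 : ∑ o, W o * Y o = 0) (N : ℕ) (i j : Fin N) :
    ∑ ω : Fin N → Ω, (∏ k, W (ω k)) * (Y (ω i) * Y (ω j)) =
      if i = j then ∑ o, W o * Y o ^ 2 else 0 := by
  have h := Finset.prod_univ_sum (fun _ : Fin N => (Finset.univ : Finset Ω))
    (fun k o => W o * ((if k = i then Y o else 1) * (if k = j then Y o else 1)))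
  rw [Fintype.piFinset_univ] at h
  have h2 : ∀ ω : Fin N → Ω, ∏ k, W (ω k) * ((if k = i then Y (ω k) else 1) *
      (if k = j then Y (ω k) else 1)) = (∏ k, W (ω k)) * (Y (ω i) * Y (ω j)) := by
    intro ω
    rw [Finset.prod_mul_distrib, Finset.prod_mul_distrib,
      Finset.prod_ite_eq' Finset.univ i (fun k => Y (ω k)),
      Finset.prod_ite_eq' Finset.univ j (fun k => Y (ω k)), if_pos (Finset.mem_univ i),
      if_pos (Finset.mem_univ j)]
  rw [Finset.sum_congr rfl fun ω _ => h2 ω] at h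
  rw [← h]
  by_cases hij : i = j
  · subst hij
    rw [if_pos rfl, Finset.prod_eq_single i]
    · refine Finset.sum_congr rfl fun o _ => ?_
      rw [if_pos rfl]
      ring
    · intro k _ hk
      refine Eq.trans (Finset.sum_congr rfl fun o _ => ?_) h1
      rw [if_neg hk]
      ring
    · intro h3
      exact absurd (Finset.mem_univ i) h3
  · rw [if_neg hij]
    refine Finset.prod_eq_zero (Finset.mem_univ i) ?_
    refine Eq.trans (Finset.sum_congr rfl fun o _ => ?_) h0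
    rw [if_pos rfl, if_neg hij]
    ring

open Classical in
private theorem second {Ω : Type} [Fintype Ω] (W Y : Ω → ℝ) (h1 : ∑ o, W o = 1)
    (h0 : ∑ o, W o * Y o = 0) (N : ℕ) :
    ∑ ω : Fin N → Ω, (∏ k, W (ω k)) * (∑ i, Y (ω i)) ^ 2 = N * ∑ o, W o * Y o ^ 2 := by
  have h2 : ∀ ω : Fin N → Ω, (∏ k, W (ω k)) * (∑ i, Y (ω i)) ^ 2 =
      ∑ i, ∑ j, (∏ k, W (ω k)) * (Y (ω i) * Y (ω j)) := by
    intro ω
    rw [sq, Finset.sum_mul_sum, Finset.mul_sum]
    exact Finset.sum_congr rfl fun i _ => Finset.mul_sum _ _ _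
  rw [Finset.sum_congr rfl fun ω _ => h2 ω, Finset.sum_comm]
  have h3 : ∀ i : Fin N, ∑ ω : Fin N → Ω, ∑ j, (∏ k, W (ω k)) * (Y (ω i) * Y (ω j)) =
      ∑ o, W o * Y o ^ 2 := by
    intro i
    rw [Finset.sum_comm, Finset.sum_congr rfl fun j _ => mixed W Y h1 h0 N i j,
      Finset.sum_ite_eq, if_pos (Finset.mem_univ i)]
  rw [Finset.sum_congr rfl fun i _ => h3 i, Finset.sum_const, Finset.card_univ, Fintype.card_fin,
    nsmul_eq_mul]

open Classical in
theorem cheb {Ω : Type} [Fintype Ω] (W X : Ω → ℝ) (hW : ∀ o, 0 ≤ W o) (h1 : ∑ o, W o = 1) (μ : ℝ)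
    (hμ : ∑ o, W o * X o = μ) (hμ0 : 0 < μ) (R : ℝ) (hR : ∑ o, W o * X o ^ 2 ≤ R * μ ^ 2) (ε : ℝ)
    (hε : 0 < ε) (N : ℕ) (hN : 4 * R / ε ^ 2 ≤ N) :
    3 / 4 ≤ ∑ ω : Fin N → Ω, if |(∑ i, X (ω i)) / N - μ| ≤ ε * μ then ∏ i, W (ω i) else 0 := by
  have hvar : ∑ o, W o * (X o - μ) ^ 2 = ∑ o, W o * X o ^ 2 - μ ^ 2 := by
    have h2 : ∀ o, W o * (X o - μ) ^ 2 = W o * X o ^ 2 - 2 * μ * (W o * X o) + μ ^ 2 * W o := by
      intro o
      ring
    rw [Finset.sum_congr rfl fun o _ => h2 o, Finset.sum_add_distrib, Finset.sum_sub_distrib,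
      ← Finset.mul_sum, ← Finset.mul_sum, hμ, h1]
    ring
  have hvar0 : 0 ≤ ∑ o, W o * (X o - μ) ^ 2 :=
    Finset.sum_nonneg fun o _ => mul_nonneg (hW o) (sq_nonneg _)
  have hmean : ∑ o, W o * (X o - μ) = 0 := by
    rw [Finset.sum_congr rfl fun o _ => mul_sub (W o) (X o) μ, Finset.sum_sub_distrib, hμ,
      ← Finset.sum_mul, h1]
    ring
  have hμ2 : 0 < μ ^ 2 := by positivity
  have hR1 : 1 ≤ R := by
    by_contra hcon
    rw [not_le] at hcon
    nlinarith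
  have hε2 : 0 < ε ^ 2 := by positivity
  have hN0 : (0 : ℝ) < N := lt_of_lt_of_le (by positivity) hN
  have hN4 : 4 * R ≤ N * ε ^ 2 := (div_le_iff₀ hε2).1 hN
  have hD : 0 < (N * ε * μ) ^ 2 := by positivity
  have hP : ∀ ω : Fin N → Ω, 0 ≤ ∏ i, W (ω i) := fun ω => Finset.prod_nonneg fun i _ => hW _
  have hkey : ∀ ω : Fin N → Ω, (∏ i, W (ω i)) -
      (∏ i, W (ω i)) * (∑ i, (X (ω i) - μ)) ^ 2 / (N * ε * μ) ^ 2 ≤
      if |(∑ i, X (ω i)) / N - μ| ≤ ε * μ then ∏ i, W (ω i) else 0 := by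
    intro ω
    split_ifs with hG
    · have : 0 ≤ (∏ i, W (ω i)) * (∑ i, (X (ω i) - μ)) ^ 2 / (N * ε * μ) ^ 2 :=
        div_nonneg (mul_nonneg (hP ω) (sq_nonneg _)) hD.le
      linarith
    · rw [not_le] at hG
      have h2 : ∑ i, (X (ω i) - μ) = N * ((∑ i, X (ω i)) / N - μ) := by
        rw [Finset.sum_sub_distrib, Finset.sum_const, Finset.card_univ, Fintype.card_fin,
          nsmul_eq_mul]
        field_simp
      have h3 : (N * ε * μ) ^ 2 ≤ (∑ i, (X (ω i) - μ)) ^ 2 := by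
        rw [h2, ← sq_abs (N * ((∑ i, X (ω i)) / N - μ)), abs_mul, abs_of_pos hN0]
        refine pow_le_pow_left₀ (by positivity) ?_ 2
        rw [mul_assoc]
        exact mul_le_mul_of_nonneg_left hG.le hN0.le
      rw [sub_nonpos, le_div_iff₀ hD]
      exact mul_le_mul_of_nonneg_left h3 (hP ω)
  have hsum := Finset.sum_le_sum fun ω (_ : ω ∈ (Finset.univ : Finset (Fin N → Ω))) => hkey ω
  rw [Finset.sum_sub_distrib, mass W h1 N, ← Finset.sum_div,
    second W (fun o => X o - μ) h1 hmean N] at hsum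
  refine le_trans ?_ hsum
  have h5 : N * ∑ o, W o * (X o - μ) ^ 2 ≤ 1 / 4 * (N * ε * μ) ^ 2 := by
    have h6 : ∑ o, W o * (X o - μ) ^ 2 ≤ R * μ ^ 2 := by
      rw [hvar]
      linarith
    calc N * ∑ o, W o * (X o - μ) ^ 2 ≤ N * (R * μ ^ 2) := mul_le_mul_of_nonneg_left h6 hN0.le
      _ = 1 / 4 * (N * μ ^ 2 * (4 * R)) := by ring
      _ ≤ 1 / 4 * (N * μ ^ 2 * (N * ε ^ 2)) :=
          mul_le_mul_of_nonneg_left (mul_le_mul_of_nonneg_left hN4 (by positivity)) (by norm_num)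
      _ = 1 / 4 * (N * ε * μ) ^ 2 := by ring
  have h7 : (N * ∑ o, W o * (X o - μ) ^ 2) / (N * ε * μ) ^ 2 ≤ 1 / 4 := by
    rw [div_le_iff₀ hD]
    exact h5
  linarith

end Pool.Agent.Work.MP_63853a_lc
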