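import Mathlib

set_option autoImplicit false

/-!
# Definitions: Tutte polynomial, connectivity, the estimator, the gadget graph

A finite multigraph with vertex set `V` and edge set `E` is a map `φ : E → V × V` (the two ends of an edge; loops
and parallel edges are allowed, the order of the two ends plays no role).
-/

namespace Pool.Agent.Work.MP_63853a_lc

open Finset

/-! ## The Tutte polynomial -/

/-- the number of connected components of the spanning subgraph with edge set `A` -/
noncomputable def kk {V E : Type} (φ : E → V × V) (A : Finset E) : ℕ :=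
  Nat.card (Quot fun u v : V => ∃ e ∈ A, φ e = (u, v))

/-- the rank of the edge set `A` -/
noncomputable def rk {V E : Type} [Fintype V] (φ : E → V × V) (A : Finset E) : ℕ :=
  Fintype.card V - kk φ A

/-- the Tutte polynomial -/
noncomputable def tutte {V E : Type} [Fintype V] [Fintype E] (φ : E → V × V) (x y : ℝ) : ℝ :=
  ∑ A : Finset E, (x - 1) ^ (rk φ univ - rk φ A) * (y - 1) ^ (A.card - rk φ A)

/-! ## Connectivity -/

/-- the number of edges with exactly one end in `S` -/
noncomputable def cut {V E : Type} (φ : E → V × V) (S : Set V) : ℕ :=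
  Set.ncard {e : E | ¬ ((φ e).1 ∈ S ↔ (φ e).2 ∈ S)}

/-- edge connectivity at least `c` -/
def EConn {V E : Type} (φ : E → V × V) (c : ℝ) : Prop :=
  ∀ S : Set V, S.Nonempty → Sᶜ.Nonempty → c ≤ cut φ S

/-- the vertex set is the union of at most `m` classes such that two vertices of the same class are not separated
by fewer than `c` edges -/
def Classes {V E : Type} (φ : E → V × V) (c : ℝ) (m : ℕ) : Prop :=
  ∃ f : V → Fin m, ∀ S : Set V, (∃ u ∈ S, ∃ v ∉ S, f u = f v) → c ≤ cut φ S

/-! ## The estimator -/

/-- the probability of the edge set `A` if every edge is kept with probability `p`, independently -/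
noncomputable def wt {E : Type} [Fintype E] (p : ℝ) (A : Finset E) : ℝ :=
  p ^ A.card * (1 - p) ^ (Fintype.card E - A.card)

/-- the value of the estimator of `tutte φ x y` at the edge set `A` -/
noncomputable def est {V E : Type} [Fintype V] [Fintype E] (φ : E → V × V) (x y : ℝ) (A : Finset E) : ℝ :=
  y ^ Fintype.card E * ((x - 1) * (y - 1)) ^ kk φ A / ((x - 1) ^ kk φ univ * (y - 1) ^ Fintype.card V)

open Classical in
/-- the probability that the mean value of the estimator over `N` independent random edge sets (every edge kept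
with probability `1 - 1 / y`) is in the interval `[(1 - ε) T, (1 + ε) T]`, `T = tutte φ x y` -/
noncomputable def success {V E : Type} [Fintype V] [Fintype E] (φ : E → V × V) (x y ε : ℝ) (N : ℕ) : ℝ :=
  ∑ ω : Fin N → Finset E,
    if |(∑ i, est φ x y (ω i)) / N - tutte φ x y| ≤ ε * tutte φ x y then ∏ i, wt (1 - 1 / y) (ω i) else 0

/-! ## The gadget graph -/

/-- a new vertex `none`, joined to every vertex by two parallel edges -/
def apex {V E : Type} (φ : E → V × V) : E ⊕ V × Bool → Option V × Option V
  | .inl e => (some (φ e).1, some (φ e).2)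
  | .inr w => (none, some w.1)

/-- the `i`-th vertex of the path with `c e` inner vertices which replaces the edge `e` -/
def pt {V E : Type} (φ : E → V × V) (c : E → ℕ) (e : E) (i : ℕ) : V ⊕ (Σ e : E, Fin (c e)) :=
  if i = 0 then Sum.inl (φ e).1
  else if h : i - 1 < c e then Sum.inr ⟨e, ⟨i - 1, h⟩⟩ else Sum.inl (φ e).2

/-- every edge `e` is replaced by a path with `c e` inner vertices, each of the `c e + 1` edges of this path by `m`
parallel edges -/
def fat {V E : Type} (φ : E → V × V) (c : E → ℕ) (m : ℕ) (g : (Σ e : E, Fin (c e + 1)) × Fin m) :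
    (V ⊕ (Σ e : E, Fin (c e))) × (V ⊕ (Σ e : E, Fin (c e))) :=
  (pt φ c g.1.1 g.1.2, pt φ c g.1.1 (g.1.2 + 1))

/-- `a` inner vertices for the edges of the graph, `b` inner vertices for the edges at the new vertex -/
def len {V E : Type} (a b : ℕ) : E ⊕ V × Bool → ℕ
  | .inl _ => a
  | .inr _ => b

/-- the vertices of the gadget graph -/
abbrev HV (V E : Type) (a b : ℕ) : Type := Option V ⊕ (Σ e : E ⊕ V × Bool, Fin (len a b e))

/-- the edges of the gadget graph -/
abbrev HE (V E : Type) (a b m : ℕ) : Type := (Σ e : E ⊕ V × Bool, Fin (len a b e + 1)) × Fin m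

instance (V E : Type) [Fintype V] [Fintype E] (a b : ℕ) : Fintype (HV V E a b) := inferInstance

instance (V E : Type) [Fintype V] [Fintype E] (a b m : ℕ) : Fintype (HE V E a b m) := inferInstance

/-- the gadget graph: a new vertex is joined to all vertices by two edges, the old edges are replaced by paths with
`a` inner vertices, the new ones by paths with `b` inner vertices, the edges of all these paths by `m` parallel
edges -/
def gad {V E : Type} (φ : E → V × V) (a b m : ℕ) : HE V E a b m → HV V E a b × HV V E a b :=
  fat (apex φ) (len a b) m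

/-- the weight `((q + g) ^ L - g ^ L) / q = ∑ i < L, (q + g) ^ i * g ^ (L - 1 - i)` -/
noncomputable def PP (g : ℝ) (L : ℕ) (q : ℝ) : ℝ := ∑ i ∈ range L, (q + g) ^ i * g ^ (L - 1 - i)

/-- the factor between `tutte (gad φ a b m) x y` and (approximately) `tutte φ x y` -/
noncomputable def scale {V E : Type} [Fintype V] [Fintype E] (φ : E → V × V) (x y : ℝ) (a b m : ℕ) : ℝ :=
  (x - 1) * (y - 1) ^ Fintype.card (HV V E a b) /
    (((x - 1) * (y - 1)) * PP (y ^ m - 1) (a + 1) ((x - 1) * (y - 1)) ^ Fintype.card E *
      PP (y ^ m - 1) (b + 1) ((x - 1) * (y - 1)) ^ (2 * Fintype.card V) *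
      ((x - 1) ^ kk φ univ * (y - 1) ^ Fintype.card V))

/-! ## Tools -/

/-- the components of the spanning subgraph with edge set `A` -/
abbrev Cl {V E : Type} (φ : E → V × V) (A : Finset E) : Type :=
  Quot fun u v : V => ∃ e ∈ A, φ e = (u, v)

/-- the component of a vertex -/
def cls {V E : Type} (φ : E → V × V) (A : Finset E) (v : V) : Cl φ A := Quot.mk _ v

/-- the edge `e` joins two components of `A` -/
def Cross {V E : Type} (φ : E → V × V) (A : Finset E) (e : E) : Prop := cls φ A (φ e).1 ≠ cls φ A (φ e).2

/-- the number of edges which join two components of `A` -/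
noncomputable def cr {V E : Type} (φ : E → V × V) (A : Finset E) : ℕ := Set.ncard {e : E | Cross φ A e}

/-- the partition function with edge weights `w` -/
noncomputable def zz {V E : Type} [Fintype E] (φ : E → V × V) (q : ℝ) (w : E → ℝ) : ℝ :=
  ∑ A : Finset E, q ^ kk φ A * ∏ e ∈ A, w e

/-- the derivative of `wt (1 - exp (-t)) A` with respect to `t` -/
noncomputable def wd {E : Type} [Fintype E] (t : ℝ) (A : Finset E) : ℝ :=
  A.card * Real.exp (-t) * (1 - Real.exp (-t)) ^ (A.card - 1) * Real.exp (-t) ^ (Fintype.card E - A.card)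
    - (Fintype.card E - A.card : ℕ) * (1 - Real.exp (-t)) ^ A.card * Real.exp (-t) ^ (Fintype.card E - A.card)

/-- the effective weight of a path of `L` edges of weight `g` -/
noncomputable def weff (g : ℝ) (L : ℕ) (q : ℝ) : ℝ := g ^ L / PP g L q

/-- the colour of the `i`-th vertex of a path with end colours `s`, `t` and inner colours `τ` -/
def pc {Q c : ℕ} (s t : Fin Q) (τ : Fin c → Fin Q) (i : ℕ) : Fin Q :=
  if i = 0 then s else if h : i - 1 < c then τ ⟨i - 1, h⟩ else t

end Pool.Agent.Work.MP_63853a_lc
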