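import Pool.Agent.Work.MP_63853a_lc.Defs

set_option autoImplicit false

/-!
# DegClasses (size M): graphs of large minimum degree have few classes

Consider surjective maps `f : V → Fin m` with at most `(m - 1) c` edges between different fibres (`m = 1` works; `m ≤ card V`);
take one with `m` maximal. If a cut `S` with `cut φ S < c` splits a fibre `P` of `f`, then splitting `P` into `P ∩ S` and `P \ S`
gives a map onto `Fin (m+1)` with at most `(m - 1) c + c` edges between different fibres, contradiction: so `f` witnesses
`Classes φ c m`. Call a fibre small if it has at most `d / 2` vertices. A vertex of a small fibre `P` is in at least `d`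
edges, of which at most `P.card ≤ d/2` have both ends in `P` (at most one edge for each second end, loops included), so at least `d / 2`
edges join it to other fibres. An edge has two ends, so `#small * (d/2) ≤ 2 (m-1) c ≤ (m - 1) d / 4`, i.e. `#small ≤ (m-1)/2`. The number
of fibres which are not small is less than or equal to `2 card V / d`. So `m ≤ m/2 + 2 card V / d`.
-/

namespace Pool.Agent.Work.MP_63853a_lc

open Finset

variable {V E : Type} [Fintype V] [Fintype E] (φ : E → V × V)

open Classical in
private noncomputable def cross {m : ℕ} (f : V → Fin m) : Finset E :=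
  univ.filter fun e => f (φ e).1 ≠ f (φ e).2

open Classical in
private noncomputable def inc (v : V) : Finset E :=
  univ.filter fun e => (φ e).1 = v ∨ (φ e).2 = v

private theorem ncard_filter (p : E → Prop) [DecidablePred p] :
    Set.ncard {e | p e} = (univ.filter p).card := by
  rw [Set.ncard_eq_toFinset_card', Set.toFinset_ofPred]

private def good (c : ℝ) (m : ℕ) : Prop :=
  ∃ f : V → Fin m, Function.Surjective f ∧ ((cross φ f).card : ℝ) ≤ ((m : ℝ) - 1) * c

omit [Fintype V] in
private theorem split_fibre {c : ℝ} {m : ℕ} (f : V → Fin m) (hf : Function.Surjective f)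
    (hX : ((cross φ f).card : ℝ) ≤ ((m : ℝ) - 1) * c) (S : Set V) (u v : V) (hu : u ∈ S)
    (hv : v ∉ S) (huv : f u = f v) (hcut : (cut φ S : ℝ) ≤ c) : good φ c (m + 1) := by
  classical
  refine ⟨fun w => if f w = f u ∧ w ∉ S then Fin.last m else (f w).castSucc, ?_, ?_⟩
  · intro j
    refine Fin.lastCases ?_ (fun j => ?_) j
    · exact ⟨v, by simp [huv, hv]⟩
    · by_cases hj : j = f u
      · exact ⟨u, by simp [hu, hj]⟩
      · obtain ⟨w, hw⟩ := hf j
        refine ⟨w, ?_⟩
        have : ¬ (f w = f u ∧ w ∉ S) := fun h => hj (hw.symm.trans h.1)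
        show (if f w = f u ∧ w ∉ S then Fin.last m else (f w).castSucc) = j.castSucc
        rw [if_neg this, hw]
  · have hsub : cross φ (fun w => if f w = f u ∧ w ∉ S then Fin.last m else (f w).castSucc) ⊆
        cross φ f ∪ univ.filter (fun e => ¬ ((φ e).1 ∈ S ↔ (φ e).2 ∈ S)) := by
      intro e he
      simp only [cross, mem_filter, mem_univ, true_and, mem_union] at he ⊢
      by_contra hcon
      push Not at hcon
      obtain ⟨h1, h2⟩ := hcon
      apply he
      rw [h1]
      by_cases h3 : (φ e).2 ∈ S
      · have h4 := h2.2 h3
        simp [h3, h4]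
      · have h4 : (φ e).1 ∉ S := fun h => h3 (h2.1 h)
        simp [h3, h4]
    have hc : (univ.filter (fun e => ¬ ((φ e).1 ∈ S ↔ (φ e).2 ∈ S))).card = cut φ S := by
      unfold cut
      rw [ncard_filter]
    have := (card_le_card hsub).trans (card_union_le _ _)
    rw [hc] at this
    have h' : ((cross φ (fun w => if f w = f u ∧ w ∉ S then Fin.last m
        else (f w).castSucc)).card : ℝ) ≤ (cross φ f).card + cut φ S := by exact_mod_cast this
    push_cast
    linarith

omit [Fintype V] in
open Classical in
private theorem many_cross {d : ℝ}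
    (hs : ∀ u v : V, Set.ncard {e : E | φ e = (u, v) ∨ φ e = (v, u)} ≤ 1)
    (hdeg : ∀ v : V, d ≤ Set.ncard {e : E | (φ e).1 = v ∨ (φ e).2 = v})
    {m : ℕ} (f : V → Fin m) (v : V) (P : Finset V) (hP : ∀ w, f w = f v → w ∈ P)
    (hPd : (P.card : ℝ) ≤ d / 2) : d / 2 ≤ ((inc φ v ∩ cross φ f).card : ℝ) := by
  classical
  have h1 : d ≤ ((inc φ v).card : ℝ) := by
    have := hdeg v
    rwa [ncard_filter (fun e : E => (φ e).1 = v ∨ (φ e).2 = v)] at this
  have h2 : (inc φ v \ cross φ f).card ≤ P.card := by
    apply card_le_card_of_injOn (fun e => if (φ e).1 = v then (φ e).2 else (φ e).1)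
    · intro e he
      simp only [coe_sdiff, Set.mem_sdiff, mem_coe, inc, cross, mem_filter, mem_univ,
        true_and, not_not] at he
      obtain ⟨he1, he2⟩ := he
      simp only [mem_coe]
      split_ifs with h
      · exact hP _ (by rw [← he2, h])
      · have h' : (φ e).2 = v := he1.resolve_left h
        exact hP _ (by rw [he2, h'])
    · intro e he e' he' hee
      simp only [coe_sdiff, Set.mem_sdiff, mem_coe, inc, mem_filter, mem_univ,
        true_and] at he he'
      simp only at hee
      obtain ⟨he1, -⟩ := he
      obtain ⟨he1', -⟩ := he'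
      set u := if (φ e).1 = v then (φ e).2 else (φ e).1 with hu
      have k1 : φ e = (u, v) ∨ φ e = (v, u) := by
        by_cases h : (φ e).1 = v
        · right; rw [hu, if_pos h]; exact Prod.ext h rfl
        · left; rw [hu, if_neg h]; exact Prod.ext rfl (he1.resolve_left h)
      have k2 : φ e' = (u, v) ∨ φ e' = (v, u) := by
        rw [hee]
        by_cases h : (φ e').1 = v
        · right; rw [if_pos h]; exact Prod.ext h rfl
        · left; rw [if_neg h]; exact Prod.ext rfl (he1'.resolve_left h)
      have hss := hs u v
      rw [ncard_filter] at hss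
      exact card_le_one.1 hss e (by simpa using k1) e' (by simpa using k2)
  have h3 : (inc φ v).card = (inc φ v ∩ cross φ f).card + (inc φ v \ cross φ f).card :=
    (card_inter_add_card_sdiff _ _).symm
  have h2' : ((inc φ v \ cross φ f).card : ℝ) ≤ P.card := by exact_mod_cast h2
  rw [h3] at h1
  push_cast at h1
  linarith

theorem classes_of_degree [Nonempty V] {c d : ℝ} (hc : 0 ≤ c) (hd : 0 < d) (hcd : 8 * c ≤ d)
    (hs : ∀ u v : V, Set.ncard {e : E | φ e = (u, v) ∨ φ e = (v, u)} ≤ 1)
    (hdeg : ∀ v : V, d ≤ Set.ncard {e : E | (φ e).1 = v ∨ (φ e).2 = v}) :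
    ∃ m : ℕ, (m : ℝ) ≤ 4 * Fintype.card V / d ∧ Classes φ c m := by
  classical
  -- the maximal m
  have hgood1 : good φ c 1 := by
    refine ⟨fun _ => 0, fun j => ⟨Classical.arbitrary V, Subsingleton.elim _ _⟩, ?_⟩
    have : cross φ (fun _ : V => (0 : Fin 1)) = ∅ := by
      ext e; simp [cross]
    rw [this]
    simp
  have hbound : ∀ m, good φ c m → m ≤ Fintype.card V := by
    rintro m ⟨f, hf, -⟩
    have := Fintype.card_le_of_surjective f hf
    simpa using this
  set m := Nat.findGreatest (good φ c) (Fintype.card V) with hm
  have hgm : good φ c m := Nat.findGreatest_spec (P := good φ c) (hbound 1 hgood1) hgood1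
  have hmax : ¬ good φ c (m + 1) := by
    intro h
    have h1 := hbound _ h
    have h2 := Nat.le_findGreatest (P := good φ c) h1 h
    rw [← hm] at h2
    omega
  obtain ⟨f, hf, hX⟩ := hgm
  refine ⟨m, ?_, f, ?_⟩
  · -- counting
    set g : Fin m → V := Function.surjInv hf with hg
    have hfg : ∀ j, f (g j) = j := Function.surjInv_eq hf
    set fib : Fin m → Finset V := fun j => univ.filter fun w => f w = j with hfib
    set small : Finset (Fin m) := univ.filter fun j => ((fib j).card : ℝ) ≤ d / 2 with hsmall
    -- small fibres
    have hsm : (small.card : ℝ) * (d / 2) ≤ 2 * ((cross φ f).card : ℝ) := by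
      have e1 : (small.card : ℝ) * (d / 2) ≤
          ∑ j ∈ small, ((inc φ (g j) ∩ cross φ f).card : ℝ) := by
        rw [← nsmul_eq_mul]
        apply card_nsmul_le_sum
        intro j hj
        refine many_cross φ hs hdeg f (g j) (fib j) ?_ ?_
        · intro w hw
          rw [hfib]
          simp only [mem_filter, mem_univ, true_and]
          rw [hw, hfg]
        · rw [hsmall, mem_filter] at hj
          exact hj.2
      have e2 : ∑ j ∈ small, (inc φ (g j) ∩ cross φ f).card ≤ 2 * (cross φ f).card := by
        have e3 : ∀ j ∈ small, (inc φ (g j) ∩ cross φ f).card =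
            ∑ e ∈ cross φ f, if e ∈ inc φ (g j) then 1 else 0 := by
          intro j _
          rw [← card_filter]
          congr 1
          ext e
          simp [and_comm]
        rw [sum_congr rfl e3, sum_comm]
        have e4 : ∀ e ∈ cross φ f, (∑ j ∈ small, if e ∈ inc φ (g j) then 1 else 0) ≤ 2 := by
          intro e _
          rw [← card_filter]
          have : small.filter (fun j => e ∈ inc φ (g j)) ⊆ {f (φ e).1, f (φ e).2} := by
            intro j hj
            simp only [mem_filter, inc, mem_univ, true_and] at hj
            simp only [mem_insert, mem_singleton]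
            rcases hj.2 with h | h
            · left; rw [h, hfg]
            · right; rw [h, hfg]
          exact (card_le_card this).trans card_le_two
        calc ∑ e ∈ cross φ f, (∑ j ∈ small, if e ∈ inc φ (g j) then 1 else 0)
            ≤ ∑ e ∈ cross φ f, 2 := sum_le_sum e4
          _ = 2 * (cross φ f).card := by rw [sum_const, smul_eq_mul, mul_comm]
      have e2' : (∑ j ∈ small, ((inc φ (g j) ∩ cross φ f).card : ℝ)) ≤
          2 * ((cross φ f).card : ℝ) := by exact_mod_cast e2
      exact e1.trans e2'
    -- large fibres
    have hlg : (((univ \ small).card : ℕ) : ℝ) * (d / 2) ≤ Fintype.card V := by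
      have e1 : (((univ \ small).card : ℕ) : ℝ) * (d / 2) ≤
          ∑ j ∈ univ \ small, ((fib j).card : ℝ) := by
        rw [← nsmul_eq_mul]
        apply card_nsmul_le_sum
        intro j hj
        simp only [hsmall, mem_sdiff, mem_univ, true_and, mem_filter, not_le] at hj
        exact hj.le
      have e2 : ∑ j ∈ univ \ small, ((fib j).card : ℝ) ≤ ∑ j, ((fib j).card : ℝ) :=
        sum_le_sum_of_subset_of_nonneg (subset_univ _) (fun _ _ _ => Nat.cast_nonneg _)
      have e3 : ∑ j, (fib j).card = Fintype.card V := by
        rw [← card_univ (α := V), card_eq_sum_card_fiberwise (f := f) (t := univ)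
          (fun _ _ => by simp)]
      have e3' : ∑ j, ((fib j).card : ℝ) = Fintype.card V := by exact_mod_cast e3
      linarith
    have htot : small.card + (univ \ small).card = m := by
      have := card_sdiff_add_card_eq_card (subset_univ small)
      rw [card_univ, Fintype.card_fin] at this
      omega
    have htot' : (small.card : ℝ) + ((univ \ small).card : ℝ) = m := by exact_mod_cast htot
    have hm1 : (1 : ℝ) ≤ m := by
      have : 1 ≤ m := Nat.le_findGreatest (P := good φ c) (hbound 1 hgood1) hgood1
      exact_mod_cast this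
    have hmc : ((m : ℝ) - 1) * c ≤ ((m : ℝ) - 1) * (d / 8) :=
      mul_le_mul_of_nonneg_left (by linarith) (by linarith)
    rw [le_div_iff₀ hd]
    have h8 : (m : ℝ) * (d / 2) ≤ ((m : ℝ) - 1) * (d / 4) + Fintype.card V := by
      rw [← htot', add_mul, htot']
      nlinarith
    nlinarith
  · rintro S ⟨u, hu, v, hv, huv⟩
    by_contra hcon
    exact hmax (split_fibre φ f hf hX S u v hu hv huv (not_le.1 hcon).le)

end Pool.Agent.Work.MP_63853a_lc
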