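import Pool.Agent.Work.MP_63853a_lc.Moment
import Pool.Agent.Work.MP_63853a_lc.TutteZ
import Pool.Agent.Work.MP_63853a_lc.Cheb

set_option autoImplicit false

/-!
# PosMain (size M): the estimator is good

Put `q = (x-1)(y-1)`, `n = Fintype.card V`, `c = 2 / log y * log n`, `T = log y`, so `exp (-T) = 1/y` and
`exp (-(c*T/2)) = 1/n`. With `D = y^(card E) / ((x-1)^(kk univ) * (y-1)^n)`, `est A = D * q^(kk A)`.
`∑ wt * est ^ 2 = D^2 * ∑ wt * (q^2)^(kk A)`, and by `moment` (for `q^2`)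
`∑ wt * (q^2)^(kk A) = (q^2)^m * ∑ wt * (q^2)^(kk A - m) ≤ (q^2)^m * (1 + (q^2-1)/n)^(n-m) ≤ (q^2)^m * exp (q^2-1)`
(if `m > n` the last power is at most `1`). And `tutte = D * ∑ wt * q^(kk A) ≥ D`. As `m ≤ β log n`:
`q^(2m) ≤ exp (2 β (log q) log n) = n^(2 β log q)`. So with `R = n^(2 β log q) * exp (q^2-1)` use `cheb`; choose `C` with
`4 * R ≤ n^C` for all `n ≥ 2`: `C = 2 |β| log q + (log 4 + q^2 - 1) / log 2`.
-/

namespace Pool.Agent.Work.MP_63853a_lc

open Finset

private theorem second_moment {V E : Type} [Fintype V] [Fintype E] (φ : E → V × V) {y q : ℝ}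
    (hy : 1 < y) (hq : 1 ≤ q) {m : ℕ} (hn : 2 ≤ Fintype.card V)
    (h : Classes φ (2 / Real.log y * Real.log (Fintype.card V)) m) :
    ∑ A : Finset E, wt (1 - 1 / y) A * q ^ kk φ A ≤ q ^ m * Real.exp (q - 1) := by
  have hly : 0 < Real.log y := Real.log_pos hy
  set n : ℝ := (Fintype.card V : ℝ) with hndef
  have hn2 : (2 : ℝ) ≤ n := by
    have : ((2 : ℕ) : ℝ) ≤ n := Nat.cast_le.2 hn
    simpa using this
  have hn0 : 0 < n := by linarith
  have hln : 0 < Real.log n := Real.log_pos (by linarith)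
  have hq0 : 0 < q := by linarith
  have hmom := moment φ (c := 2 / Real.log y * Real.log n) (T := Real.log y) (by positivity) hq
    hly.le h
  have he : Real.exp (-Real.log y) = 1 / y := by
    rw [Real.exp_neg, Real.exp_log (by linarith), one_div]
  have he2 : Real.exp (-(2 / Real.log y * Real.log n * Real.log y / 2)) = 1 / n := by
    have : 2 / Real.log y * Real.log n * Real.log y / 2 = Real.log n := by
      field_simp
    rw [this, Real.exp_neg, Real.exp_log hn0, one_div]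
  rw [he, he2] at hmom
  have hsum : ∑ A : Finset E, wt (1 - 1 / y) A * q ^ kk φ A =
      q ^ m * ∑ A : Finset E, wt (1 - 1 / y) A * q ^ ((kk φ A : ℤ) - m) := by
    rw [Finset.mul_sum]
    refine Finset.sum_congr rfl fun A _ => ?_
    rw [zpow_sub₀ hq0.ne', zpow_natCast, zpow_natCast]
    field_simp
  rw [hsum]
  refine mul_le_mul_of_nonneg_left (hmom.trans ?_) (by positivity)
  have hs1 : 1 ≤ 1 + (q - 1) * (1 / n) := by
    have : 0 ≤ (q - 1) * (1 / n) := mul_nonneg (by linarith) (by positivity)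
    linarith
  calc (1 + (q - 1) * (1 / n)) ^ ((Fintype.card V : ℤ) - m)
      ≤ (1 + (q - 1) * (1 / n)) ^ (Fintype.card V : ℤ) :=
        zpow_le_zpow_right₀ hs1 (by omega)
    _ = (1 + (q - 1) * (1 / n)) ^ Fintype.card V := zpow_natCast _ _
    _ ≤ Real.exp ((q - 1) * (1 / n)) ^ Fintype.card V := by
        refine pow_le_pow_left₀ (by linarith) ?_ _
        have := Real.add_one_le_exp ((q - 1) * (1 / n))
        linarith
    _ = Real.exp (q - 1) := by
        rw [← Real.exp_nat_mul]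
        congr 1
        field_simp
        rw [hndef]
        ring

theorem pos_main (x y : ℝ) (hx : 1 < x) (hy : 1 < y) (hq : 1 ≤ (x - 1) * (y - 1)) (β : ℝ) :
    ∃ C : ℝ, ∀ (V E : Type) [Fintype V] [Fintype E] (φ : E → V × V) (m : ℕ),
      2 ≤ Fintype.card V → (m : ℝ) ≤ β * Real.log (Fintype.card V) →
      Classes φ (2 / Real.log y * Real.log (Fintype.card V)) m →
      ∀ ε : ℝ, 0 < ε → ∀ N : ℕ, (Fintype.card V : ℝ) ^ C / ε ^ 2 ≤ N → 3 / 4 ≤ success φ x y ε N := by
  set q : ℝ := (x - 1) * (y - 1) with hqdef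
  have hl2 : 0 < Real.log 2 := Real.log_pos (by norm_num)
  refine ⟨2 * β * Real.log q + (Real.log 4 + (q ^ 2 - 1)) / Real.log 2,
    fun V E _ _ φ m hn hm hcl ε hε N hN => ?_⟩
  set n : ℝ := (Fintype.card V : ℝ) with hndef
  have hn2 : (2 : ℝ) ≤ n := by
    have : ((2 : ℕ) : ℝ) ≤ n := Nat.cast_le.2 hn
    simpa using this
  have hn0 : 0 < n := by linarith
  have hln : Real.log 2 ≤ Real.log n := Real.log_le_log (by norm_num) hn2
  have hq0 : 0 < q := by linarith
  have hlq : 0 ≤ Real.log q := Real.log_nonneg hq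
  have hx0 : 0 < x - 1 := by linarith
  have hy0 : 0 < y - 1 := by linarith
  have hy1 : 0 < y := by linarith
  have : Nonempty V := Fintype.card_pos_iff.1 (by omega)
  have hp0 : (0 : ℝ) ≤ 1 - 1 / y := by
    have : 1 / y ≤ 1 := by rw [div_le_one hy1]; exact hy.le
    linarith
  have hp1 : (1 : ℝ) - 1 / y ≤ 1 := by
    have : 0 ≤ 1 / y := by positivity
    linarith
  set D : ℝ := y ^ Fintype.card E / ((x - 1) ^ kk φ univ * (y - 1) ^ Fintype.card V) with hD
  have hD0 : 0 < D := by positivity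
  have hest : ∀ A : Finset E, est φ x y A = D * q ^ kk φ A := by
    intro A
    rw [est, hD, ← hqdef]
    ring
  have hmean := est_mean φ hx hy
  have hT : 0 < tutte φ x y := tutte_pos φ hx hy
  have hTD : D ≤ tutte φ x y := by
    rw [← hmean]
    calc D = ∑ A : Finset E, wt (1 - 1 / y) A * D := by
          rw [← Finset.sum_mul, wt_sum, one_mul]
      _ ≤ ∑ A : Finset E, wt (1 - 1 / y) A * est φ x y A := by
          refine Finset.sum_le_sum fun A _ => mul_le_mul_of_nonneg_left ?_ (wt_nonneg hp0 hp1 A)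
          rw [hest]
          exact le_mul_of_one_le_right hD0.le (one_le_pow₀ hq)
  have hq2 : 1 ≤ q ^ 2 := one_le_pow₀ hq
  have h2 := second_moment φ hy hq2 hn hcl
  set R : ℝ := (q ^ 2) ^ m * Real.exp (q ^ 2 - 1) with hR
  have hR0 : 0 < R := by positivity
  have h3 : ∑ A : Finset E, wt (1 - 1 / y) A * est φ x y A ^ 2 ≤ R * tutte φ x y ^ 2 := by
    have e1 : ∑ A : Finset E, wt (1 - 1 / y) A * est φ x y A ^ 2 =
        D ^ 2 * ∑ A : Finset E, wt (1 - 1 / y) A * (q ^ 2) ^ kk φ A := by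
      rw [Finset.mul_sum]
      refine Finset.sum_congr rfl fun A _ => ?_
      rw [hest, mul_pow, ← pow_mul, ← pow_mul, mul_comm (kk φ A) 2]
      ring
    rw [e1]
    calc D ^ 2 * ∑ A : Finset E, wt (1 - 1 / y) A * (q ^ 2) ^ kk φ A ≤ D ^ 2 * R :=
          mul_le_mul_of_nonneg_left h2 (by positivity)
      _ ≤ tutte φ x y ^ 2 * R := mul_le_mul_of_nonneg_right (pow_le_pow_left₀ hD0.le hTD 2) hR0.le
      _ = R * tutte φ x y ^ 2 := mul_comm _ _
  refine cheb (fun A : Finset E => wt (1 - 1 / y) A) (est φ x y) (fun A => wt_nonneg hp0 hp1 A)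
    (wt_sum _) (tutte φ x y) hmean hT R h3 ε hε N (le_trans ?_ hN)
  refine div_le_div_of_nonneg_right ?_ (by positivity)
  have h4 : 4 * R = Real.exp (Real.log 4 + (2 * m * Real.log q + (q ^ 2 - 1))) := by
    rw [Real.exp_add, Real.exp_add, Real.exp_log (by norm_num), hR]
    congr 2
    rw [← pow_mul, show (2 : ℝ) * m * Real.log q = (2 * m : ℕ) * Real.log q by push_cast; ring,
      Real.exp_nat_mul, Real.exp_log hq0]
  rw [h4, Real.rpow_def_of_pos hn0]
  refine Real.exp_le_exp.2 ?_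
  have h5 : 0 ≤ Real.log 4 + (q ^ 2 - 1) := by
    have : 0 ≤ Real.log 4 := Real.log_nonneg (by norm_num)
    linarith
  have h6 : Real.log 4 + (q ^ 2 - 1) ≤ Real.log n * ((Real.log 4 + (q ^ 2 - 1)) / Real.log 2) := by
    rw [mul_div_assoc', le_div_iff₀ hl2, mul_comm]
    exact mul_le_mul_of_nonneg_right hln h5
  have h7 : 2 * (m : ℝ) * Real.log q ≤ Real.log n * (2 * β * Real.log q) := by
    have := mul_le_mul_of_nonneg_right hm hlq
    nlinarith
  linarith

end Pool.Agent.Work.MP_63853a_lc
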