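import Pool.Agent.Work.MP_63853a_lc.DegClasses
import Pool.Agent.Work.MP_63853a_lc.PosMain

set_option autoImplicit false

/-!
# DegMain (size S-M): dense graphs

`d = α n / log n`, `c = 2 / log y * log n`, `n = card V`. There is `n₀` with `8 c ≤ d` for `n ≥ n₀` (`log n ^ 2 / n → 0`), then
`m ≤ 4 / α * log n` by `classes_of_degree`. For `2 ≤ n < n₀` use `m = n` (injective `f`, `Classes` is vacuous), `n ≤ n₀ / log 2 * log n`.
Apply `pos_main` with `β = max (4/α) (n₀ / log 2)`.
-/

namespace Pool.Agent.Work.MP_63853a_lc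

open Finset

theorem deg_main (x y : ℝ) (hx : 1 < x) (hy : 1 < y) (hq : 1 ≤ (x - 1) * (y - 1)) (α : ℝ) (hα : 0 < α) :
    ∃ C : ℝ, ∀ (V E : Type) [Fintype V] [Fintype E] (φ : E → V × V), 2 ≤ Fintype.card V →
      (∀ u v : V, Set.ncard {e : E | φ e = (u, v) ∨ φ e = (v, u)} ≤ 1) →
      (∀ v : V, α * Fintype.card V / Real.log (Fintype.card V) ≤
        Set.ncard {e : E | (φ e).1 = v ∨ (φ e).2 = v}) →
      ∀ ε : ℝ, 0 < ε → ∀ N : ℕ, (Fintype.card V : ℝ) ^ C / ε ^ 2 ≤ N → 3 / 4 ≤ success φ x y ε N := by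
  have hL : 0 < Real.log y := Real.log_pos hy
  have hl2 : 0 < Real.log 2 := Real.log_pos (by norm_num)
  have hδ : 0 < α * Real.log y / 16 := by positivity
  have h0 := (Real.isLittleO_pow_log_id_atTop (n := 2)).def hδ
  rw [Filter.eventually_atTop] at h0
  obtain ⟨n₀, hn₀⟩ := h0
  obtain ⟨C, hC⟩ := pos_main x y hx hy hq (max (4 / α) (|n₀| / Real.log 2))
  refine ⟨C, fun V E _ _ φ hn hs hdeg => ?_⟩
  have hne : Nonempty V := Fintype.card_pos_iff.1 (by omega)
  set n : ℝ := (Fintype.card V : ℝ) with hndef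
  have hn2 : (2 : ℝ) ≤ n := by
    have : ((2 : ℕ) : ℝ) ≤ n := Nat.cast_le.2 hn
    simpa using this
  have hn0 : 0 < n := by linarith
  have hln : 0 < Real.log n := Real.log_pos (by linarith)
  have hln2 : Real.log 2 ≤ Real.log n := Real.log_le_log (by norm_num) hn2
  by_cases hbig : n₀ ≤ n
  · have h1 := hn₀ n hbig
    rw [id_eq, Real.norm_of_nonneg (by positivity), Real.norm_of_nonneg hn0.le] at h1
    have hd : 0 < α * n / Real.log n := by positivity
    have hcd : 8 * (2 / Real.log y * Real.log n) ≤ α * n / Real.log n := by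
      rw [le_div_iff₀ hln]
      have h2 : 8 * (2 / Real.log y * Real.log n) * Real.log n =
          16 / Real.log y * Real.log n ^ 2 := by ring
      rw [h2]
      refine (mul_le_mul_of_nonneg_left h1 (by positivity)).trans (le_of_eq ?_)
      field_simp
    obtain ⟨m, hm, hcl⟩ := classes_of_degree φ (by positivity) hd hcd hs hdeg
    refine hC V E φ m hn ?_ hcl
    have h3 : 4 * n / (α * n / Real.log n) = 4 / α * Real.log n := by
      field_simp
    rw [← hndef, h3] at hm
    exact hm.trans (mul_le_mul_of_nonneg_right (le_max_left _ _) hln.le)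
  · refine hC V E φ (Fintype.card V) hn ?_ ?_
    · have h4 : n ≤ |n₀| := (not_le.1 hbig).le.trans (le_abs_self _)
      have h5 : |n₀| ≤ |n₀| / Real.log 2 * Real.log n := by
        rw [div_mul_eq_mul_div, le_div_iff₀ hl2]
        exact mul_le_mul_of_nonneg_left hln2 (abs_nonneg _)
      exact (h4.trans h5).trans (mul_le_mul_of_nonneg_right (le_max_right _ _) hln.le)
    · refine ⟨Fintype.equivFin V, ?_⟩
      rintro S ⟨u, hu, v, hv, huv⟩
      exact (hv ((Fintype.equivFin V).injective huv ▸ hu)).elim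

end Pool.Agent.Work.MP_63853a_lc
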