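import Pool.Agent.Work.MP_63853a_lc.PForm

set_option autoImplicit false

/-!
# Lengths (size M): the choice of the lengths of the paths

`λ = log (1 + q/g)`, `q/(q+g) ≤ λ` (`Real.one_sub_inv_le_log_of_pos`). First: `L = ⌊log (1 + q/w) / λ⌋₊ ≥ 1` because
`w ≤ g`; `L = a + 1`; `(1+q/g)^L = exp (L λ)` is in `[(1+q/w)/(1+q/g), 1+q/w]`; `a + 1 ≤ log (1+q/w) * (q+g)/q ≤ (q+g)/w`
(`Real.log_le_sub_one_of_pos`). Second: `L = ⌈log (1 + q/θ) / λ⌉₊ ≥ 1`, `L = b + 1`, `b ≤ log (1+q/θ)/λ ≤ (q+g)/θ`.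
-/

namespace Pool.Agent.Work.MP_63853a_lc

open Finset

theorem lambda_pos {g q : ℝ} (hq : 0 < q) (hg : 0 < g) : 0 < Real.log (1 + q / g) := by
  apply Real.log_pos
  have : 0 < q / g := by positivity
  linarith

theorem log_div_le {g q w : ℝ} (hq : 0 < q) (hw : 0 < w) (hg : 0 < g) :
    Real.log (1 + q / w) / Real.log (1 + q / g) ≤ (q + g) / w := by
  have hl := lambda_pos hq hg
  have h1 : q / (q + g) ≤ Real.log (1 + q / g) := by
    have h := Real.one_sub_inv_le_log_of_pos (x := 1 + q / g) (by positivity)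
    have h2 : 1 - (1 + q / g)⁻¹ = q / (q + g) := by field_simp; ring
    linarith
  have h3 : Real.log (1 + q / w) ≤ q / w := by
    have h := Real.log_le_sub_one_of_pos (x := 1 + q / w) (by positivity)
    linarith
  rw [div_le_iff₀ hl]
  calc Real.log (1 + q / w) ≤ q / w := h3
    _ = (q + g) / w * (q / (q + g)) := by field_simp
    _ ≤ (q + g) / w * Real.log (1 + q / g) := by
      apply mul_le_mul_of_nonneg_left h1
      positivity

theorem pow_eq_exp {g q : ℝ} (hq : 0 < q) (hg : 0 < g) (L : ℕ) :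
    (1 + q / g) ^ L = Real.exp (L * Real.log (1 + q / g)) := by
  have h : 0 < 1 + q / g := by positivity
  rw [Real.exp_nat_mul, Real.exp_log h]

theorem exists_a {g q w : ℝ} (hq : 0 < q) (hw : 0 < w) (hg : 2 * w ≤ g) :
    ∃ a : ℕ, ((a : ℝ) + 1 ≤ (q + g) / w) ∧ w ≤ weff g (a + 1) q ∧
      weff g (a + 1) q ≤ (1 + 2 * (q + w) / g) * w := by
  have hg0 : 0 < g := by linarith
  have hl := lambda_pos hq hg0
  have hpw : 0 < 1 + q / w := by positivity
  set t := Real.log (1 + q / w) / Real.log (1 + q / g) with ht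
  have ht1 : 1 ≤ t := by
    rw [ht, le_div_iff₀ hl, one_mul]
    apply Real.log_le_log (by positivity)
    have : q / g ≤ q / w := by
      apply div_le_div_of_nonneg_left hq.le hw
      linarith
    linarith
  have hL1 : 1 ≤ ⌊t⌋₊ := by
    rw [Nat.one_le_floor_iff]
    exact ht1
  obtain ⟨a, ha⟩ : ∃ a, ⌊t⌋₊ = a + 1 := ⟨⌊t⌋₊ - 1, by omega⟩
  have hLt : ((a + 1 : ℕ) : ℝ) ≤ t := by
    rw [← ha]; exact Nat.floor_le (by linarith)
  have hLt2 : t < ((a + 1 : ℕ) : ℝ) + 1 := by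
    rw [← ha]; exact Nat.lt_floor_add_one t
  have e1 : t * Real.log (1 + q / g) = Real.log (1 + q / w) := by
    rw [ht]; exact div_mul_cancel₀ _ hl.ne'
  have hup : (1 + q / g) ^ (a + 1) ≤ 1 + q / w := by
    rw [pow_eq_exp hq hg0, ← Real.exp_log hpw]
    apply Real.exp_le_exp.mpr
    rw [← e1]
    exact mul_le_mul_of_nonneg_right hLt hl.le
  have hlo : (1 + q / w) / (1 + q / g) ≤ (1 + q / g) ^ (a + 1) := by
    rw [div_le_iff₀ (by positivity), ← pow_succ, pow_eq_exp hq hg0]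
    rw [← Real.exp_log hpw]
    apply Real.exp_le_exp.mpr
    rw [← e1]
    apply mul_le_mul_of_nonneg_right _ hl.le
    push_cast at hLt2 ⊢
    linarith
  refine ⟨a, ?_, ?_, ?_⟩
  · have := log_div_le hq hw hg0
    push_cast at hLt
    linarith
  · exact weff_lower hg0 hq hw (a + 1) (by omega) hup
  · exact weff_upper hq hw hg (a + 1) (by omega) hlo

theorem exists_b {g q θ : ℝ} (hq : 0 < q) (hθ : 0 < θ) (hg : 0 < g) :
    ∃ b : ℕ, ((b : ℝ) ≤ (q + g) / θ) ∧ weff g (b + 1) q ≤ θ := by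
  have hl := lambda_pos hq hg
  have hpw : 0 < 1 + q / θ := by positivity
  have hpw1 : 1 < 1 + q / θ := by
    have : 0 < q / θ := by positivity
    linarith
  set t := Real.log (1 + q / θ) / Real.log (1 + q / g) with ht
  have ht0 : 0 < t := div_pos (Real.log_pos hpw1) hl
  have hL1 : 1 ≤ ⌈t⌉₊ := Nat.one_le_ceil_iff.mpr ht0
  obtain ⟨b, hb⟩ : ∃ b, ⌈t⌉₊ = b + 1 := ⟨⌈t⌉₊ - 1, by omega⟩
  have hLt : t ≤ ((b + 1 : ℕ) : ℝ) := by
    rw [← hb]; exact Nat.le_ceil t
  have hLt2 : ((b + 1 : ℕ) : ℝ) < t + 1 := by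
    rw [← hb]; exact Nat.ceil_lt_add_one ht0.le
  have e1 : t * Real.log (1 + q / g) = Real.log (1 + q / θ) := by
    rw [ht]; exact div_mul_cancel₀ _ hl.ne'
  have hlo : 1 + q / θ ≤ (1 + q / g) ^ (b + 1) := by
    rw [pow_eq_exp hq hg]
    rw [← Real.exp_log hpw]
    apply Real.exp_le_exp.mpr
    rw [← e1]
    exact mul_le_mul_of_nonneg_right hLt hl.le
  refine ⟨b, ?_, weff_small hg hq hθ (b + 1) (by omega) hlo⟩
  have := log_div_le hq hθ hg
  push_cast at hLt2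
  linarith

end Pool.Agent.Work.MP_63853a_lc
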