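import Pool.Agent.Work.MP_63853a_lc.Defs

set_option autoImplicit false

/-!
# PForm (size S-M): the effective weight of a path

`PP_mul`: `geom_sum₂_mul` / `Commute.mul_geom_sum₂` with `q + g`, `g`. `weff_eq`: divide by `g^L`.
`weff_lower`: `(1 + q/g)^L ≤ 1 + q/w` gives `weff ≥ w`. `weff_upper`: if `(1 + q/w)/(1 + q/g) ≤ (1 + q/g)^L` and `2 w ≤ g` then
`weff ≤ q (1 + q/g) / (q/w - q/g) = w (g + q)/(g - w) = w (1 + (q + w)/(g - w)) ≤ w (1 + 2 (q + w)/g)`.
`weff_small`: `1 + q/θ ≤ (1 + q/g)^L` gives `weff ≤ θ`.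
-/

namespace Pool.Agent.Work.MP_63853a_lc

open Finset

theorem PP_mul (g q : ℝ) (L : ℕ) : PP g L q * q = (q + g) ^ L - g ^ L := by
  have h := geom_sum₂_mul (q + g) g L
  rw [add_sub_cancel_right] at h
  exact h

private theorem D_pos {g q : ℝ} (hg : 0 < g) (hq : 0 < q) (L : ℕ) (hL : 1 ≤ L) :
    0 < (1 + q / g) ^ L - 1 := by
  have h1 : 1 < 1 + q / g := by
    have := div_pos hq hg
    linarith
  have := one_lt_pow₀ h1 (by omega : L ≠ 0)
  linarith

theorem weff_eq {g q : ℝ} (hg : 0 < g) (hq : 0 < q) (L : ℕ) (hL : 1 ≤ L) :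
    weff g L q = q / ((1 + q / g) ^ L - 1) := by
  have hD := D_pos hg hq L hL
  have hgL : 0 < g ^ L := pow_pos hg L
  have h1 := PP_mul g q L
  have h2 : (q + g) ^ L = g ^ L * (1 + q / g) ^ L := by
    rw [← mul_pow]
    congr 1
    field_simp
    ring
  have h3 : PP g L q * q = g ^ L * ((1 + q / g) ^ L - 1) := by
    rw [h1, h2]
    ring
  have h4 : 0 < PP g L q := by
    have : 0 < PP g L q * q := by
      rw [h3]
      exact mul_pos hgL hD
    exact pos_of_mul_pos_left this hq.le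
  rw [weff, div_eq_div_iff h4.ne' hD.ne', ← h3]
  ring

theorem weff_pos {g q : ℝ} (hg : 0 < g) (hq : 0 < q) (L : ℕ) (hL : 1 ≤ L) : 0 < weff g L q := by
  rw [weff_eq hg hq L hL]
  exact div_pos hq (D_pos hg hq L hL)

theorem weff_lower {g q w : ℝ} (hg : 0 < g) (hq : 0 < q) (hw : 0 < w) (L : ℕ) (hL : 1 ≤ L)
    (h : (1 + q / g) ^ L ≤ 1 + q / w) : w ≤ weff g L q := by
  rw [weff_eq hg hq L hL, le_div_iff₀ (D_pos hg hq L hL)]
  calc w * ((1 + q / g) ^ L - 1) ≤ w * (q / w) := mul_le_mul_of_nonneg_left (by linarith) hw.le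
    _ = q := by field_simp

theorem weff_upper {g q w : ℝ} (hq : 0 < q) (hw : 0 < w) (hg : 2 * w ≤ g) (L : ℕ) (hL : 1 ≤ L)
    (h : (1 + q / w) / (1 + q / g) ≤ (1 + q / g) ^ L) :
    weff g L q ≤ (1 + 2 * (q + w) / g) * w := by
  have hg0 : 0 < g := by linarith
  rw [weff_eq hg0 hq L hL, div_le_iff₀ (D_pos hg0 hq L hL)]
  have h1 : w * ((1 + q / w) / (1 + q / g) - 1) = q * (g - w) / (g + q) := by
    field_simp
    ring
  have h2 : q ≤ (1 + 2 * (q + w) / g) * (q * (g - w) / (g + q)) := by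
    have e : (1 + 2 * (q + w) / g) * (q * (g - w) / (g + q)) =
        ((g + 2 * (q + w)) * (q * (g - w))) / (g * (g + q)) := by
      field_simp
    rw [e, le_div_iff₀ (by positivity)]
    nlinarith [mul_nonneg hq.le (mul_nonneg (sub_nonneg.2 hg) (add_pos hw hq).le)]
  have h3 : (0 : ℝ) ≤ (1 + 2 * (q + w) / g) * w := by positivity
  calc q ≤ (1 + 2 * (q + w) / g) * (q * (g - w) / (g + q)) := h2
    _ = (1 + 2 * (q + w) / g) * w * ((1 + q / w) / (1 + q / g) - 1) := by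
        rw [← h1]
        ring
    _ ≤ (1 + 2 * (q + w) / g) * w * ((1 + q / g) ^ L - 1) :=
        mul_le_mul_of_nonneg_left (by linarith) h3

theorem weff_small {g q θ : ℝ} (hg : 0 < g) (hq : 0 < q) (hθ : 0 < θ) (L : ℕ) (hL : 1 ≤ L)
    (h : 1 + q / θ ≤ (1 + q / g) ^ L) : weff g L q ≤ θ := by
  rw [weff_eq hg hq L hL, div_le_iff₀ (D_pos hg hq L hL)]
  calc q = θ * (q / θ) := by field_simp
    _ ≤ θ * ((1 + q / g) ^ L - 1) := mul_le_mul_of_nonneg_left (by linarith) hθ.le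

end Pool.Agent.Work.MP_63853a_lc
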