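import Pool.Agent.Work.MP_63853a_lc.Lengths

set_option autoImplicit false

/-!
# Params (size M): the choice of all parameters

`w = y - 1`, `g = y^m - 1`, `X = (v + M) / δ ≥ 1`. Take `θ = δ / (8 v)` and let `m` be the least natural number with
`y^m ≥ A` where `A = K * X^K` is chosen below, so `A ≤ y^m ≤ y * A`. Conditions:
(1) `2 w ≤ g` and `2 (q+w)/g * M ≤ δ/4`: ok if `g ≥ 2 w + 8 (q+w) X`.
(2) `(1+η)^M * (1+θ)^(2v) ≤ exp (η M + 2 v θ) ≤ exp (δ/2) ≤ 1 + δ` for `η = 2 (q+w)/g`.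
(3) `a ≤ (q+g)/w`, `b ≤ (q+g)/θ = 8 v (q+g)/δ`, so the number of vertices is
`v + 1 + M a + 2 v b ≤ 2 v + M (q+g)/w + 16 v^2 (q+g)/δ ≤ B * (g+1) * X^2` for a constant `B ≥ 1` (use `δ ≤ 1`, `v, M ≤ X`, `v^2/δ ≤ X^2`).
(4) `α log (B (g+1) X^2) ≤ 2 m = (2 / log y) log (g+1)` holds if `α ≤ 0` (the number of vertices is `≥ 1`) or if
`y^m = g + 1 ≥ (B X^2)^κ`, `κ = α / (2/log y - α)`.
(5) The size bound: all is polynomial in `X` since `y^m ≤ y * A` and `m ≤ y^m / (y - 1)` (Bernoulli).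
-/

namespace Pool.Agent.Work.MP_63853a_lc

open Finset

private theorem params_m {y A : ℝ} (hy : 1 < y) (hA : 1 < A) :
    ∃ m : ℕ, 1 ≤ m ∧ A ≤ y ^ m ∧ y ^ m ≤ y * A := by
  classical
  have hex : ∃ m : ℕ, A < y ^ m := pow_unbounded_of_one_lt A hy
  refine ⟨Nat.find hex, ?_, (Nat.find_spec hex).le, ?_⟩
  · rw [Nat.one_le_iff_ne_zero]
    intro h0
    have := Nat.find_spec hex
    rw [h0, pow_zero] at this
    linarith
  · have h1 : 1 ≤ Nat.find hex := by
      rw [Nat.one_le_iff_ne_zero]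
      intro h0
      have := Nat.find_spec hex
      rw [h0, pow_zero] at this
      linarith
    obtain ⟨k, hk⟩ := Nat.exists_eq_add_of_le' h1
    have h2 : ¬ A < y ^ k := Nat.find_min hex (by omega)
    rw [hk, pow_succ, mul_comm]
    exact mul_le_mul_of_nonneg_left (not_lt.mp h2) (by linarith)

private theorem exp_half {δ : ℝ} (hδ : 0 < δ) (hδ1 : δ ≤ 1) : Real.exp (δ / 2) ≤ 1 + δ := by
  have h := Real.abs_exp_sub_one_sub_id_le (x := δ / 2) (by
    rw [abs_of_pos (by linarith)]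
    linarith)
  have h1 := (abs_le.mp h).2
  nlinarith

private theorem params_core {v M a b m : ℕ} {q w g δ X B : ℝ} (hq : 0 < q) (hw : 0 < w) (hg : 0 < g)
    (hδ : 0 < δ) (hδ1 : δ ≤ 1) (hv : 1 ≤ v) (hX : X = ((v + M : ℕ) : ℝ) / δ)
    (hB : B = 2 + (q + 1) / w + 16 * (q + 1))
    (ha : (a : ℝ) + 1 ≤ (q + g) / w) (hb : (b : ℝ) ≤ (q + g) / (δ / (8 * v)))
    (hm : (m : ℝ) ≤ (g + 1) / w) :
    ((v + 1 + M * a + 2 * v * b : ℕ) : ℝ) ≤ B * (g + 1) * X ^ 2 ∧
    ((v + 1 + M * a + 2 * v * b + (M * (a + 1) + 2 * v * (b + 1)) * m : ℕ) : ℝ) ≤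
      B * (1 + 3 / w) * (g + 1) ^ 2 * X ^ 2 := by
  have hv0 : (0 : ℝ) < v := by exact_mod_cast hv
  have hv1 : (1 : ℝ) ≤ v := by exact_mod_cast hv
  have hM0 : (0 : ℝ) ≤ M := Nat.cast_nonneg M
  have ha0 : (0 : ℝ) ≤ a := Nat.cast_nonneg a
  have hb0 : (0 : ℝ) ≤ b := Nat.cast_nonneg b
  have hm0 : (0 : ℝ) ≤ m := Nat.cast_nonneg m
  have hvX : (v : ℝ) / δ ≤ X := by
    rw [hX]
    push_cast
    gcongr
    linarith
  have hMX : (M : ℝ) / δ ≤ X := by
    rw [hX]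
    push_cast
    gcongr
    linarith
  have hdiv : ∀ z : ℝ, 0 ≤ z → z ≤ z / δ := fun z hz => by
    rw [le_div_iff₀ hδ]
    nlinarith
  have hvX' : (v : ℝ) ≤ X := (hdiv _ hv0.le).trans hvX
  have hMX' : (M : ℝ) ≤ X := (hdiv _ hM0).trans hMX
  have hsum : (v : ℝ) + M ≤ X := by
    rw [hX]
    push_cast
    exact hdiv _ (by linarith)
  have hX1 : 1 ≤ X := hv1.trans hvX'
  have hX0 : 0 < X := by linarith
  have hgq : q + g ≤ (q + 1) * (g + 1) := by nlinarith
  have hb' : (v : ℝ) * b ≤ 8 * (X ^ 2 * ((q + 1) * (g + 1))) := by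
    have h1 : (q + g) / (δ / (8 * v)) = 8 * (v / δ) * (q + g) := by
      field_simp
    rw [h1] at hb
    have h2 : (v : ℝ) * b ≤ v * (8 * (v / δ) * (q + g)) := mul_le_mul_of_nonneg_left hb hv0.le
    have h3 : (v : ℝ) * (8 * (v / δ) * (q + g)) ≤ X * (8 * X * ((q + 1) * (g + 1))) := by
      have : 0 ≤ (v : ℝ) / δ := by positivity
      gcongr
    calc (v : ℝ) * b ≤ _ := h2
      _ ≤ _ := h3
      _ = _ := by ring
  have ha' : (M : ℝ) * a ≤ X * (((q + 1) * (g + 1)) / w) := by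
    have h1 : (a : ℝ) ≤ ((q + 1) * (g + 1)) / w := by
      have : (q + g) / w ≤ ((q + 1) * (g + 1)) / w := by gcongr
      linarith
    exact mul_le_mul hMX' h1 ha0 hX0.le
  have hXX : X ≤ X ^ 2 := by nlinarith
  have hg1 : 1 ≤ g + 1 := by linarith
  have hXg : X ≤ (g + 1) * X ^ 2 := by
    calc X ≤ X ^ 2 := hXX
      _ = 1 * X ^ 2 := by ring
      _ ≤ (g + 1) * X ^ 2 := mul_le_mul_of_nonneg_right hg1 (by positivity)
  have hN : ((v + 1 + M * a + 2 * v * b : ℕ) : ℝ) ≤ B * (g + 1) * X ^ 2 := by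
    push_cast
    have h1 : (v : ℝ) + 1 ≤ 2 * ((g + 1) * X ^ 2) := by linarith
    have h2 : (M : ℝ) * a ≤ (q + 1) / w * ((g + 1) * X ^ 2) := by
      calc (M : ℝ) * a ≤ X * (((q + 1) * (g + 1)) / w) := ha'
        _ ≤ X ^ 2 * (((q + 1) * (g + 1)) / w) := by gcongr
        _ = _ := by ring
    have h3 : 2 * (v : ℝ) * b ≤ 16 * (q + 1) * ((g + 1) * X ^ 2) := by
      calc 2 * (v : ℝ) * b = 2 * (v * b) := by ring
        _ ≤ 2 * (8 * (X ^ 2 * ((q + 1) * (g + 1)))) := by gcongr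
        _ = _ := by ring
    rw [hB]
    nlinarith
  refine ⟨hN, ?_⟩
  set P : ℝ := B * (g + 1) * X ^ 2 with hP
  have hB1 : 1 ≤ B := by
    rw [hB]
    have : 0 < (q + 1) / w := by positivity
    nlinarith
  have hXP : X ≤ P := by
    rw [hP]
    calc X ≤ (g + 1) * X ^ 2 := hXg
      _ = 1 * ((g + 1) * X ^ 2) := by ring
      _ ≤ B * ((g + 1) * X ^ 2) := by gcongr
      _ = _ := by ring
  have hP0 : 0 < P := by linarith
  have hN' : (M : ℝ) * a + 2 * v * b ≤ P := by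
    have := hN
    push_cast at this
    nlinarith
  have hR : (M : ℝ) * (a + 1) + 2 * v * (b + 1) ≤ 3 * P := by nlinarith
  have hT : ((v + 1 + M * a + 2 * v * b + (M * (a + 1) + 2 * v * (b + 1)) * m : ℕ) : ℝ) ≤
      P + 3 * P * ((g + 1) / w) := by
    have e : ((v + 1 + M * a + 2 * v * b + (M * (a + 1) + 2 * v * (b + 1)) * m : ℕ) : ℝ) =
        ((v + 1 + M * a + 2 * v * b : ℕ) : ℝ) + ((M : ℝ) * (a + 1) + 2 * v * (b + 1)) * m := by
      push_cast
      ring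
    rw [e]
    have : ((M : ℝ) * (a + 1) + 2 * v * (b + 1)) * m ≤ 3 * P * ((g + 1) / w) :=
      mul_le_mul hR hm hm0 (by positivity)
    linarith
  refine hT.trans ?_
  have e2 : B * (1 + 3 / w) * (g + 1) ^ 2 * X ^ 2 = P * ((g + 1) * (1 + 3 / w)) := by
    rw [hP]
    ring
  rw [e2]
  have e3 : P + 3 * P * ((g + 1) / w) = P * (1 + 3 * ((g + 1) / w)) := by ring
  rw [e3]
  apply mul_le_mul_of_nonneg_left _ hP0.le
  have e4 : (g + 1) * (1 + 3 / w) = (g + 1) + 3 * ((g + 1) / w) := by ring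
  rw [e4]
  linarith

theorem params {x y : ℝ} (hx : 1 < x) (hy : 1 < y) {α : ℝ} (hα : α < 2 / Real.log y) :
    ∃ C : ℕ, ∀ (v M : ℕ) (δ : ℝ), 1 ≤ v → 0 < δ → δ ≤ 1 → ∃ a b m : ℕ, ∃ η θ : ℝ, 1 ≤ m ∧ 0 ≤ η ∧ 0 ≤ θ ∧
      ((v + 1 + M * a + 2 * v * b + (M * (a + 1) + 2 * v * (b + 1)) * m : ℕ) : ℝ) ≤
        C * ((v + M : ℕ) / δ) ^ C ∧
      α * Real.log ((v + 1 + M * a + 2 * v * b : ℕ) : ℝ) ≤ 2 * m ∧
      y - 1 ≤ weff (y ^ m - 1) (a + 1) ((x - 1) * (y - 1)) ∧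
      weff (y ^ m - 1) (a + 1) ((x - 1) * (y - 1)) ≤ (1 + η) * (y - 1) ∧
      weff (y ^ m - 1) (b + 1) ((x - 1) * (y - 1)) ≤ θ ∧
      (1 + η) ^ M * (1 + θ) ^ (2 * v) ≤ 1 + δ := by
  obtain ⟨w, hwdef⟩ : ∃ w : ℝ, w = y - 1 := ⟨_, rfl⟩
  obtain ⟨q, hqdef⟩ : ∃ q : ℝ, q = (x - 1) * (y - 1) := ⟨_, rfl⟩
  have hw : 0 < w := by rw [hwdef]; linarith
  have hq : 0 < q := by rw [hqdef]; exact mul_pos (by linarith) (by linarith)
  have hlog : 0 < Real.log y := Real.log_pos hy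
  have hd : 0 < 2 - α * Real.log y := by
    rw [lt_div_iff₀ hlog] at hα
    linarith
  obtain ⟨K, hK⟩ := exists_nat_ge (α * Real.log y / (2 - α * Real.log y))
  have hK' : α * Real.log y ≤ K * (2 - α * Real.log y) := by
    rwa [div_le_iff₀ hd] at hK
  obtain ⟨B, hB⟩ : ∃ B : ℝ, B = 2 + (q + 1) / w + 16 * (q + 1) := ⟨_, rfl⟩
  have hB1 : 1 ≤ B := by
    rw [hB]
    have : 0 < (q + 1) / w := by positivity
    nlinarith
  obtain ⟨A0, hA0⟩ : ∃ A0 : ℝ, A0 = 2 * w + 8 * (q + w) := ⟨_, rfl⟩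
  have hA0p : 0 < A0 := by rw [hA0]; positivity
  obtain ⟨D, hD⟩ : ∃ D : ℝ, D = y * (B ^ K + A0 + 1) := ⟨_, rfl⟩
  have hD0 : 0 < D := by
    rw [hD]
    have : 0 < y := by linarith
    have : 0 < B ^ K := pow_pos (by linarith) K
    positivity
  obtain ⟨C1, hC1⟩ := exists_nat_ge (B * (1 + 3 / w) * D ^ 2)
  refine ⟨C1 + (4 * K + 4), ?_⟩
  intro v M δ hv hδ hδ1
  obtain ⟨X, hX⟩ : ∃ X : ℝ, X = ((v + M : ℕ) : ℝ) / δ := ⟨_, rfl⟩
  have hv1 : (1 : ℝ) ≤ v := by exact_mod_cast hv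
  have hM0 : (0 : ℝ) ≤ M := Nat.cast_nonneg M
  have hX1 : 1 ≤ X := by
    rw [hX, le_div_iff₀ hδ]
    push_cast
    linarith
  have hX0 : 0 < X := by linarith
  obtain ⟨m, hm1, hmA, hmy⟩ := params_m (A := (B * X ^ 2) ^ K + A0 * X + 1) hy (by
    have : 0 < (B * X ^ 2) ^ K := by positivity
    have : 0 < A0 * X := by positivity
    linarith)
  have hBX : 0 < (B * X ^ 2) ^ K := by positivity
  obtain ⟨g, hgdef⟩ : ∃ g : ℝ, g = y ^ m - 1 := ⟨_, rfl⟩
  have hg1 : A0 * X ≤ g := by rw [hgdef]; linarith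
  have hA0X : A0 ≤ A0 * X := by nlinarith
  have hg2 : 2 * w ≤ g := by
    have : 2 * w ≤ A0 := by rw [hA0]; nlinarith
    linarith
  have hg3 : 8 * (q + w) * X ≤ g := by
    have : 8 * (q + w) * X ≤ A0 * X := by
      apply mul_le_mul_of_nonneg_right _ hX0.le
      rw [hA0]
      linarith
    linarith
  have hg0 : 0 < g := by linarith
  have hθ : 0 < δ / (8 * (v : ℝ)) := by positivity
  obtain ⟨a, ha, ha1, ha2⟩ := exists_a hq hw hg2
  obtain ⟨b, hb, hb1⟩ := exists_b hq hθ hg0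
  have hm : (m : ℝ) ≤ (g + 1) / w := by
    rw [le_div_iff₀ hw]
    have h1 := one_add_mul_le_pow (a := w) (by linarith) m
    have h2 : (1 + w) = y := by rw [hwdef]; ring
    rw [h2] at h1
    rw [hgdef]
    linarith
  obtain ⟨hN, hT⟩ := params_core hq hw hg0 hδ hδ1 hv hX hB ha hb hm
  have hgy : g + 1 = y ^ m := by rw [hgdef]; ring
  refine ⟨a, b, m, 2 * (q + w) / g, δ / (8 * (v : ℝ)), hm1, by positivity, hθ.le, ?_, ?_, ?_, ?_, ?_, ?_⟩
  · rw [← hX]
    refine hT.trans ?_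
    have hgD : g + 1 ≤ D * X ^ (2 * K + 1) := by
      rw [hgy]
      refine hmy.trans ?_
      rw [hD, mul_assoc]
      apply mul_le_mul_of_nonneg_left _ (by linarith)
      have h1 : X ^ (2 * K) ≤ X ^ (2 * K + 1) := pow_le_pow_right₀ hX1 (by omega)
      have h2 : X ≤ X ^ (2 * K + 1) := le_self_pow₀ hX1 (by omega)
      have h3 : (1 : ℝ) ≤ X ^ (2 * K + 1) := one_le_pow₀ hX1
      have h4 : (B * X ^ 2) ^ K = B ^ K * X ^ (2 * K) := by
        rw [mul_pow, ← pow_mul]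
      rw [h4]
      have h5 : B ^ K * X ^ (2 * K) ≤ B ^ K * X ^ (2 * K + 1) := by gcongr
      have h6 : A0 * X ≤ A0 * X ^ (2 * K + 1) := by gcongr
      nlinarith
    have hg10 : 0 ≤ g + 1 := by linarith
    have hw3 : 0 < 1 + 3 / w := by positivity
    calc B * (1 + 3 / w) * (g + 1) ^ 2 * X ^ 2
        ≤ B * (1 + 3 / w) * (D * X ^ (2 * K + 1)) ^ 2 * X ^ 2 := by gcongr
      _ = B * (1 + 3 / w) * D ^ 2 * X ^ (4 * K + 4) := by ring
      _ ≤ C1 * X ^ (4 * K + 4) := by gcongr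
      _ ≤ ((C1 + (4 * K + 4) : ℕ) : ℝ) * X ^ (C1 + (4 * K + 4)) := by
          apply mul_le_mul
          · push_cast
            have : (0 : ℝ) ≤ K := Nat.cast_nonneg K
            linarith
          · exact pow_le_pow_right₀ hX1 (by omega)
          · positivity
          · positivity
  · rcases le_or_gt α 0 with hα0 | hα0
    · have h1 : 0 ≤ Real.log ((v + 1 + M * a + 2 * v * b : ℕ) : ℝ) := by
        apply Real.log_nonneg
        have : 1 ≤ v + 1 + M * a + 2 * v * b := by omega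
        exact_mod_cast this
      have h2 : α * Real.log ((v + 1 + M * a + 2 * v * b : ℕ) : ℝ) ≤ 0 :=
        mul_nonpos_of_nonpos_of_nonneg hα0 h1
      have h3 : (0 : ℝ) ≤ m := Nat.cast_nonneg m
      linarith
    · have hNpos : (0 : ℝ) < ((v + 1 + M * a + 2 * v * b : ℕ) : ℝ) := by
        have : 0 < v + 1 + M * a + 2 * v * b := by omega
        exact_mod_cast this
      have h1 : Real.log ((v + 1 + M * a + 2 * v * b : ℕ) : ℝ) ≤ Real.log (B * (g + 1) * X ^ 2) :=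
        Real.log_le_log hNpos hN
      have hBX0 : 0 < B * X ^ 2 := by positivity
      have h2 : Real.log (B * (g + 1) * X ^ 2) = Real.log (B * X ^ 2) + m * Real.log y := by
        have : B * (g + 1) * X ^ 2 = (B * X ^ 2) * y ^ m := by rw [hgy]; ring
        rw [this, Real.log_mul hBX0.ne' (pow_pos (by linarith) m).ne', Real.log_pow]
      have h3 : K * Real.log (B * X ^ 2) ≤ m * Real.log y := by
        rw [← Real.log_pow, ← Real.log_pow]
        apply Real.log_le_log hBX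
        have : 0 < A0 * X := by positivity
        linarith
      have hL0 : 0 ≤ Real.log (B * X ^ 2) := by
        apply Real.log_nonneg
        nlinarith [one_le_pow₀ hX1 (n := 2)]
      rw [h2] at h1
      have h4 : α * Real.log ((v + 1 + M * a + 2 * v * b : ℕ) : ℝ) ≤
          α * (Real.log (B * X ^ 2) + m * Real.log y) := mul_le_mul_of_nonneg_left h1 hα0.le
      -- `α log y L ≤ K d L ≤ d m log y`
      have h5 : α * Real.log y * Real.log (B * X ^ 2) ≤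
          (2 - α * Real.log y) * (m * Real.log y) := by
        calc α * Real.log y * Real.log (B * X ^ 2)
            ≤ K * (2 - α * Real.log y) * Real.log (B * X ^ 2) := by gcongr
          _ = (2 - α * Real.log y) * (K * Real.log (B * X ^ 2)) := by ring
          _ ≤ (2 - α * Real.log y) * (m * Real.log y) := by gcongr
      have h6 : α * Real.log (B * X ^ 2) ≤ (2 - α * Real.log y) * m := by
        have : (α * Real.log (B * X ^ 2)) * Real.log y ≤ ((2 - α * Real.log y) * m) * Real.log y := by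
          linarith
        exact le_of_mul_le_mul_right this hlog
      have h7 : α * (Real.log (B * X ^ 2) + m * Real.log y) =
          α * Real.log (B * X ^ 2) + α * Real.log y * m := by ring
      linarith
  · rw [← hqdef, ← hwdef, ← hgdef]
    exact ha1
  · rw [← hqdef, ← hwdef, ← hgdef]
    exact ha2
  · rw [← hqdef, ← hgdef]
    exact hb1
  · have hη : 0 ≤ 2 * (q + w) / g := by positivity
    have h1 : (1 + 2 * (q + w) / g) ^ M ≤ Real.exp (M * (2 * (q + w) / g)) := by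
      rw [Real.exp_nat_mul]
      apply pow_le_pow_left₀ (by positivity)
      rw [add_comm]
      exact Real.add_one_le_exp _
    have h2 : (1 + δ / (8 * (v : ℝ))) ^ (2 * v) ≤ Real.exp (((2 * v : ℕ) : ℝ) * (δ / (8 * (v : ℝ)))) := by
      rw [Real.exp_nat_mul]
      apply pow_le_pow_left₀ (by positivity)
      rw [add_comm]
      exact Real.add_one_le_exp _
    have h3 : (M : ℝ) * (2 * (q + w) / g) ≤ δ / 4 := by
      have hMX : (M : ℝ) ≤ X * δ := by
        rw [hX, div_mul_cancel₀ _ hδ.ne']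
        push_cast
        linarith
      rw [← mul_div_assoc, div_le_iff₀ hg0]
      calc (M : ℝ) * (2 * (q + w)) ≤ X * δ * (2 * (q + w)) := by gcongr
        _ = δ / 4 * (8 * (q + w) * X) := by ring
        _ ≤ δ / 4 * g := by gcongr
    have h4 : ((2 * v : ℕ) : ℝ) * (δ / (8 * (v : ℝ))) = δ / 4 := by
      push_cast
      field_simp
      ring
    calc (1 + 2 * (q + w) / g) ^ M * (1 + δ / (8 * (v : ℝ))) ^ (2 * v)
        ≤ Real.exp (M * (2 * (q + w) / g)) * Real.exp (((2 * v : ℕ) : ℝ) * (δ / (8 * (v : ℝ)))) := by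
          gcongr
      _ = Real.exp (M * (2 * (q + w) / g) + ((2 * v : ℕ) : ℝ) * (δ / (8 * (v : ℝ)))) := by
          rw [Real.exp_add]
      _ ≤ Real.exp (δ / 2) := by
          apply Real.exp_le_exp.mpr
          rw [h4]
          linarith
      _ ≤ 1 + δ := exp_half hδ hδ1

end Pool.Agent.Work.MP_63853a_lc
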