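import Pool.Agent.Work.MP_63853a_lc.Transfer

set_option autoImplicit false

/-!
# PathPotts (size M): summing over the colours of the inner vertices

A colouring of `V ⊕ Σ e, Fin (c e)` is a colouring `σ` of `V` and a family `τ e : Fin (c e) → Fin Q`
(`Equiv.sumArrowEquivProdArrow`, `Equiv.piCurry`); the colour of `pt φ c e i` is `pc (σ (φ e).1) (σ (φ e).2) (τ e) i`. The
product over `(Σ e, Fin (c e + 1)) × Fin m` is `∏ e, ∏ i, (1 + if .. then γ else 0) ^ m` and
`(1 + if P then γ else 0) ^ m = 1 + if P then (1+γ)^m - 1 else 0`. The sum over the family `τ` of the product over `e` is the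
product over `e` of the sums over `τ e` (`Finset.prod_univ_sum`, `Fintype.piFinset_univ`); `path_sum`.
-/

namespace Pool.Agent.Work.MP_63853a_lc

open Finset

variable {V E : Type} [Fintype V] [Fintype E] (φ : E → V × V)

/-- a colouring of the subdivided graph is a colouring of the vertices and of the inner vertices -/
def colEquiv (V : Type) {E : Type} (c : E → ℕ) (Q : ℕ) :
    ((V ⊕ (Σ e : E, Fin (c e))) → Fin Q) ≃ (V → Fin Q) × (∀ e : E, Fin (c e) → Fin Q) where
  toFun σ := (fun v => σ (Sum.inl v), fun e i => σ (Sum.inr ⟨e, i⟩))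
  invFun p := Sum.elim p.1 (fun x => p.2 x.1 x.2)
  left_inv σ := by
    funext x
    rcases x with v | ⟨e, i⟩ <;> rfl
  right_inv p := rfl

omit [Fintype V] [Fintype E] in
theorem col_pt (c : E → ℕ) (Q : ℕ) (σ : (V ⊕ (Σ e : E, Fin (c e))) → Fin Q) (e : E) (i : ℕ) :
    σ (pt φ c e i) = pc (((colEquiv V c Q) σ).1 (φ e).1) (((colEquiv V c Q) σ).1 (φ e).2)
      (((colEquiv V c Q) σ).2 e) i := by
  unfold pt pc
  split_ifs <;> rfl

theorem pow_ite (P : Prop) [Decidable P] (γ : ℝ) (m : ℕ) :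
    (1 + if P then γ else 0) ^ m = 1 + if P then (1 + γ) ^ m - 1 else 0 := by
  split_ifs <;> simp

open Classical in
theorem potts_fat (c : E → ℕ) (m Q : ℕ) (γ : ℝ) :
    ∑ σ : (V ⊕ (Σ e : E, Fin (c e))) → Fin Q, ∏ f : (Σ e : E, Fin (c e + 1)) × Fin m,
      (1 + if σ (fat φ c m f).1 = σ (fat φ c m f).2 then γ else 0) =
    ∑ σ : V → Fin Q, ∏ e, (PP ((1 + γ) ^ m - 1) (c e + 1) (Q : ℝ) +
      if σ (φ e).1 = σ (φ e).2 then ((1 + γ) ^ m - 1) ^ (c e + 1) else 0) := by
  set g : ℝ := (1 + γ) ^ m - 1 with hg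
  have step : ∀ σ : (V ⊕ (Σ e : E, Fin (c e))) → Fin Q,
      (∏ f : (Σ e : E, Fin (c e + 1)) × Fin m,
        (1 + if σ (fat φ c m f).1 = σ (fat φ c m f).2 then γ else 0)) =
      (fun p : (V → Fin Q) × (∀ e : E, Fin (c e) → Fin Q) =>
        ∏ e : E, ∏ i : Fin (c e + 1),
          (1 + if pc (p.1 (φ e).1) (p.1 (φ e).2) (p.2 e) (i : ℕ) =
            pc (p.1 (φ e).1) (p.1 (φ e).2) (p.2 e) ((i : ℕ) + 1) then g else 0)) (colEquiv V c Q σ) := by
    intro σ
    rw [Fintype.prod_prod_type, Fintype.prod_sigma]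
    refine Finset.prod_congr rfl fun e _ => Finset.prod_congr rfl fun i _ => ?_
    have hk : ∀ k : Fin m, (1 + if σ (fat φ c m (⟨e, i⟩, k)).1 = σ (fat φ c m (⟨e, i⟩, k)).2 then γ else 0) =
        (1 + if pc (((colEquiv V c Q) σ).1 (φ e).1) (((colEquiv V c Q) σ).1 (φ e).2)
            (((colEquiv V c Q) σ).2 e) (i : ℕ) =
          pc (((colEquiv V c Q) σ).1 (φ e).1) (((colEquiv V c Q) σ).1 (φ e).2)
            (((colEquiv V c Q) σ).2 e) ((i : ℕ) + 1) then γ else 0) := by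
      intro k
      have e1 := col_pt φ c Q σ e (i : ℕ)
      have e2 := col_pt φ c Q σ e ((i : ℕ) + 1)
      congr 1
      apply if_congr _ rfl rfl
      show σ (pt φ c e (i : ℕ)) = σ (pt φ c e ((i : ℕ) + 1)) ↔ _
      rw [e1, e2]
    rw [Finset.prod_congr rfl fun k _ => hk k, Finset.prod_const, Finset.card_univ, Fintype.card_fin, pow_ite]
  rw [Finset.sum_congr rfl fun σ _ => step σ]
  rw [Equiv.sum_comp (colEquiv V c Q) (fun p : (V → Fin Q) × (∀ e : E, Fin (c e) → Fin Q) =>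
        ∏ e : E, ∏ i : Fin (c e + 1),
          (1 + if pc (p.1 (φ e).1) (p.1 (φ e).2) (p.2 e) (i : ℕ) =
            pc (p.1 (φ e).1) (p.1 (φ e).2) (p.2 e) ((i : ℕ) + 1) then g else 0))]
  rw [Fintype.sum_prod_type]
  refine Finset.sum_congr rfl fun σ _ => ?_
  have h := Finset.prod_univ_sum (fun e : E => (Finset.univ : Finset (Fin (c e) → Fin Q)))
    (fun e τ => ∏ i : Fin (c e + 1),
          (1 + if pc (σ (φ e).1) (σ (φ e).2) τ (i : ℕ) =
            pc (σ (φ e).1) (σ (φ e).2) τ ((i : ℕ) + 1) then g else 0))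
  rw [Fintype.piFinset_univ] at h
  rw [← h]
  refine Finset.prod_congr rfl fun e _ => ?_
  have h2 := path_sum Q g (c e) (σ (φ e).1) (σ (φ e).2)
  convert h2

end Pool.Agent.Work.MP_63853a_lc
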