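import Pool.Agent.Work.MP_63853a_lc.Defs

set_option autoImplicit false

/-!
# Transfer (size M): the sum over the inner colours of a path

Induction on `c` (for all `s`): split `τ = Fin.cons r τ'` (`Fin.consEquiv` or `Fin.insertNthEquiv`); the factor `i = 0` is
`1 + if s = r then g else 0`, the others are the factors of the path from `r` with inner colours `τ'`. With
`S_c s t = PP g (c+1) Q + if s = t then g^(c+1) else 0`: `∑ r, (1 + if s = r then g else 0) * S_c r t =
Q * PP + g^(c+1) + g * PP + if s = t then g^(c+2) else 0` and `PP g (c+2) Q = (Q + g) * PP g (c+1) Q + g^(c+1)`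
(`Finset.sum_range_succ'`).
-/

namespace Pool.Agent.Work.MP_63853a_lc

open Finset

theorem PP_succ (g q : ℝ) (L : ℕ) : PP g (L + 1) q = (q + g) * PP g L q + g ^ L := by
  unfold PP
  rw [Finset.sum_range_succ', Finset.mul_sum]
  congr 1
  · refine Finset.sum_congr rfl fun i hi => ?_
    have h1 : L + 1 - 1 - (i + 1) = L - 1 - i := by omega
    rw [h1, pow_succ]
    ring
  · simp

private theorem pc_cons {Q c : ℕ} (s t r : Fin Q) (τ : Fin c → Fin Q) (j : ℕ) :
    pc s t (Fin.cons (α := fun _ => Fin Q) r τ) (j + 1) = pc r t τ j := by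
  unfold pc
  rw [if_neg (Nat.succ_ne_zero j)]
  cases j with
  | zero => simp
  | succ k =>
    rw [if_neg (Nat.succ_ne_zero k)]
    by_cases hk : k < c
    · rw [dif_pos (show k + 1 + 1 - 1 < c + 1 by omega), dif_pos (show k + 1 - 1 < c by omega)]
      have h1 : (⟨k + 1 + 1 - 1, by omega⟩ : Fin (c + 1)) = Fin.succ ⟨k + 1 - 1, by omega⟩ := rfl
      rw [h1, Fin.cons_succ]
    · rw [dif_neg (show ¬ k + 1 + 1 - 1 < c + 1 by omega), dif_neg (show ¬ k + 1 - 1 < c by omega)]

private theorem pc_zero {Q c : ℕ} (s t : Fin Q) (τ : Fin c → Fin Q) : pc s t τ 0 = s := rfl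

theorem path_sum (Q : ℕ) (g : ℝ) (c : ℕ) (s t : Fin Q) :
    ∑ τ : Fin c → Fin Q, ∏ i : Fin (c + 1),
      (1 + if pc s t τ (i : ℕ) = pc s t τ ((i : ℕ) + 1) then g else 0) =
      PP g (c + 1) (Q : ℝ) + if s = t then g ^ (c + 1) else 0 := by
  induction c generalizing s with
  | zero =>
    have h1 : ∀ τ : Fin 0 → Fin Q, pc s t τ 1 = t := by
      intro τ
      unfold pc
      simp
    simp [PP, pc_zero, h1]
  | succ c ih =>
    have h1 : ∑ τ : Fin (c + 1) → Fin Q, ∏ i : Fin (c + 1 + 1),
        (1 + if pc s t τ (i : ℕ) = pc s t τ ((i : ℕ) + 1) then g else 0) =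
        ∑ r : Fin Q, ∑ τ : Fin c → Fin Q, (1 + if s = r then g else 0) * ∏ i : Fin (c + 1),
          (1 + if pc r t τ (i : ℕ) = pc r t τ ((i : ℕ) + 1) then g else 0) := by
      rw [← (Fin.consEquiv (fun _ : Fin (c + 1) => Fin Q)).sum_comp, Fintype.sum_prod_type]
      refine Finset.sum_congr rfl fun r _ => Finset.sum_congr rfl fun τ _ => ?_
      rw [Fin.prod_univ_succ]
      have h2 : (Fin.consEquiv (fun _ : Fin (c + 1) => Fin Q)) (r, τ) =
          Fin.cons (α := fun _ => Fin Q) r τ := rfl
      rw [h2]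
      have h4 : pc s t (Fin.cons (α := fun _ => Fin Q) r τ) (((0 : Fin (c + 1 + 1)) : ℕ) + 1) = r := by
        have := pc_cons s t r τ 0
        rwa [pc_zero] at this
      have h5 : pc s t (Fin.cons (α := fun _ => Fin Q) r τ) ((0 : Fin (c + 1 + 1)) : ℕ) = s := rfl
      rw [h4, h5]
      congr 1
      refine Finset.prod_congr rfl fun i _ => ?_
      have h6 : pc s t (Fin.cons (α := fun _ => Fin Q) r τ) (i.succ : ℕ) = pc r t τ i :=
        pc_cons s t r τ i
      have h7 : pc s t (Fin.cons (α := fun _ => Fin Q) r τ) ((i.succ : ℕ) + 1) =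
          pc r t τ ((i : ℕ) + 1) := pc_cons s t r τ (i + 1)
      rw [h6, h7]
    rw [h1]
    simp only [← Finset.mul_sum, ih]
    have h3 : ∀ r : Fin Q, (1 + if s = r then g else 0) *
        (PP g (c + 1) (Q : ℝ) + if r = t then g ^ (c + 1) else 0) =
        PP g (c + 1) (Q : ℝ) + (if r = t then g ^ (c + 1) else 0) +
        (if s = r then g * PP g (c + 1) (Q : ℝ) else 0) +
        (if s = r then (if s = t then g ^ (c + 1 + 1) else 0) else 0) := by
      intro r
      by_cases h : s = r
      · subst h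
        by_cases h' : s = t
        · simp only [h', if_true]; ring
        · simp only [h', if_false, if_true]; ring
      · simp only [h, if_false]; ring
    simp only [h3, Finset.sum_add_distrib, Finset.sum_ite_eq, Finset.sum_ite_eq',
      Finset.mem_univ, if_true, Finset.sum_const, Finset.card_univ, Fintype.card_fin, nsmul_eq_mul]
    rw [PP_succ g (Q : ℝ) (c + 1)]
    ring

end Pool.Agent.Work.MP_63853a_lc
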